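import Pool.Agent.Lib_helper32.InvC.Ae

/-!
PART G4 of Theorem C (Codazzi).
-/

set_option autoImplicit false

namespace InvC

open Set Filter Topology MeasureTheory Asymptotics
open scoped RealInnerProductSpace ContDiff Gradient

variable {n : ℕ}

lemma two_le_inf : minSmoothness ℝ 2 ≤ (∞ : WithTop ℕ∞) := by
  rw [minSmoothness_of_isRCLikeNormedField]
  exact WithTop.coe_le_coe.2 (le_top : (2 : ℕ∞) ≤ ⊤)

/-- the pointwise argument: `dN = κ da` to first order at `q` -/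
lemma codazzi_point {V : Set (Qn n)} (hV : IsOpen V) {a N : Qn n → Vn n} {κ : Qn n → ℝ}
    (ha : ContDiffOn ℝ ∞ a V) (hN : ContDiffOn ℝ ∞ N V) (hκ : ContDiffOn ℝ ∞ κ V) {q : Qn n}
    (hq : q ∈ V) (hr : ∃ ξ η, LinearIndependent ℝ ![fderiv ℝ a q ξ, fderiv ℝ a q η])
    (h : fderiv ℝ (fun p => fderiv ℝ N p - κ p • fderiv ℝ a p) q = 0) : fderiv ℝ κ q = 0 := by
  have hVq : V ∈ 𝓝 q := hV.mem_nhds hq
  have haq : ContDiffAt ℝ ∞ a q := ha.contDiffAt hVq
  have hNq : ContDiffAt ℝ ∞ N q := hN.contDiffAt hVq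
  have hκq : ContDiffAt ℝ ∞ κ q := hκ.contDiffAt hVq
  have hda : DifferentiableAt ℝ (fderiv ℝ a) q :=
    ((haq.fderiv_right (m := 1) (by norm_cast)).differentiableAt (by norm_num))
  have hdN : DifferentiableAt ℝ (fderiv ℝ N) q :=
    ((hNq.fderiv_right (m := 1) (by norm_cast)).differentiableAt (by norm_num))
  have hdκ : DifferentiableAt ℝ κ q := hκq.differentiableAt (by simp)
  have hsa : IsSymmSndFDerivAt ℝ a q := haq.isSymmSndFDerivAt two_le_inf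
  have hsN : IsSymmSndFDerivAt ℝ N q := hNq.isSymmSndFDerivAt two_le_inf
  have h1 : ∀ u w : Qn n, fderiv ℝ (fderiv ℝ N) q u w
      = κ q • fderiv ℝ (fderiv ℝ a) q u w + fderiv ℝ κ q u • fderiv ℝ a q w := by
    intro u w
    rw [fderiv_fun_sub hdN (hdκ.fun_smul hda), fderiv_fun_smul hdκ hda] at h
    have h2 := congrArg (fun A : Qn n →L[ℝ] (Qn n →L[ℝ] Vn n) => A u w) h
    simp only [sub_apply, add_apply,
      smul_apply, ContinuousLinearMap.smulRight_apply,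
      zero_apply] at h2
    exact sub_eq_zero.mp h2
  have h2 : ∀ u w : Qn n, fderiv ℝ κ q u • fderiv ℝ a q w = fderiv ℝ κ q w • fderiv ℝ a q u := by
    intro u w
    have e1 := h1 u w
    have e2 := h1 w u
    rw [hsN.eq u w, e2, hsa.eq w u] at e1
    exact (add_left_cancel e1).symm
  obtain ⟨ξ, η, hli⟩ := hr
  rw [LinearIndependent.pair_iff] at hli
  have h3 := h2 ξ η
  have h4 : (-(fderiv ℝ κ q η)) • fderiv ℝ a q ξ + (fderiv ℝ κ q ξ) • fderiv ℝ a q η = 0 := by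
    rw [h3, neg_smul, neg_add_cancel]
  obtain ⟨h5, h6⟩ := hli _ _ h4
  have hξ0 : fderiv ℝ a q ξ ≠ 0 := by
    intro h0
    have := hli 1 0 (by rw [h0]; simp)
    exact one_ne_zero this.1
  refine ContinuousLinearMap.ext fun u => ?_
  have h7 := h2 u ξ
  rw [h6, zero_smul] at h7
  rcases smul_eq_zero.mp h7 with h8 | h8
  · simpa using h8
  · exact absurd h8 hξ0

/-- PART G4 (Codazzi), `n ≥ 3` -/
theorem codazzi {V : Set (Qn n)} (hV : IsOpen V) {a N : Qn n → Vn n} {κ : Qn n → ℝ}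
    (ha : ContDiffOn ℝ ∞ a V) (hN : ContDiffOn ℝ ∞ N V) (hκ : ContDiffOn ℝ ∞ κ V)
    (hr : ∀ q ∈ V, ∃ ξ η, LinearIndependent ℝ ![fderiv ℝ a q ξ, fderiv ℝ a q η]) :
    volume {q ∈ V | fderiv ℝ N q = κ q • fderiv ℝ a q ∧ fderiv ℝ κ q ≠ 0} = 0 := by
  have hg : ContDiffOn ℝ ∞ (fun p => fderiv ℝ N p - κ p • fderiv ℝ a p) V :=
    (hN.fderiv_of_isOpen hV (by simp)).sub (hκ.smul (ha.fderiv_of_isOpen hV (by simp)))
  refine measure_mono_null ?_ (ae_fderiv_zero hV hg)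
  rintro q ⟨hq, h1, h2⟩
  refine ⟨hq, ?_, fun h3 => h2 (codazzi_point hV ha hN hκ hq (hr q hq) h3)⟩
  rw [h1, sub_self]

end InvC
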