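import Pool.Agent.Lib_helper86.InvC.Surj

/-!
PART G5 of Theorem C: for `n ≥ 3` the reflection points have rank at least 2.
-/

set_option autoImplicit false

namespace InvC

open Set Filter Topology MeasureTheory Asymptotics
open scoped RealInnerProductSpace ContDiff Gradient

variable {n : ℕ}

/-- two vectors which are independent modulo a third one -/
lemma exists_two_mod (hn : 3 ≤ n) {v : Vn n} (hv : v ≠ 0) : ∃ δ₁ δ₂ : Vn n, ∀ a b c : ℝ,
    a • δ₁ + b • δ₂ + c • v = 0 → a = 0 ∧ b = 0 := by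
  have h1 : LinearIndependent ℝ ![v] := by
    rw [linearIndependent_unique_iff]
    exact hv
  have hfin : Module.finrank ℝ (Vn n) = n := by simp
  obtain ⟨x, hx⟩ := exists_linearIndependent_cons_of_lt_finrank h1 (by rw [hfin]; omega)
  obtain ⟨y, hy⟩ := exists_linearIndependent_cons_of_lt_finrank hx (by rw [hfin]; omega)
  refine ⟨y, x, fun a b c h => ?_⟩
  rw [Fintype.linearIndependent_iff] at hy
  have h2 := hy ![a, b, c] (by
    rw [Fin.sum_univ_three]
    exact h)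
  exact ⟨h2 0, h2 1⟩

/-- PART G5 -/
theorem Branch.rank {S : Set (Vn n)} {V : Set (Qn n)} {k : ℕ} {W : ℕ → Set (Vn n)}
    {f : ℕ → Vn n → ℝ} {L : ℕ → Qn n → Qn n} {τ : ℕ → Qn n → ℝ} (h : Branch S V k W f L τ)
    (hn : 3 ≤ n) {i : ℕ} (hi : i < k) {q : Qn n} (hq : q ∈ V) :
    ∃ ξ η, LinearIndependent ℝ ![fderiv ℝ (fun q => pos (τ i q) (L i q)) q ξ,
      fderiv ℝ (fun q => pos (τ i q) (L i q)) q η] := by
  have hVq : V ∈ 𝓝 q := h.isOpen.mem_nhds hq
  have hdL : DifferentiableAt ℝ (L i) q :=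
    ((h.smoothL i hi.le).contDiffAt hVq).differentiableAt (by simp)
  have hdT : DifferentiableAt ℝ (τ i) q :=
    ((h.smoothT i hi).contDiffAt hVq).differentiableAt (by simp)
  have hv : (L i q).2 ≠ 0 := by
    intro h0
    apply h.trans i hi q hq
    rw [h0, inner_zero_right]
  have hA : HasFDerivAt (fun q => pos (τ i q) (L i q))
      ((ContinuousLinearMap.fst ℝ (Vn n) (Vn n)).comp (fderiv ℝ (L i) q) +
        (τ i q • (ContinuousLinearMap.snd ℝ (Vn n) (Vn n)).comp (fderiv ℝ (L i) q) +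
          (fderiv ℝ (τ i) q).smulRight (L i q).2)) q := by
    have h1 : HasFDerivAt (fun q => (L i q).1)
        ((ContinuousLinearMap.fst ℝ (Vn n) (Vn n)).comp (fderiv ℝ (L i) q)) q :=
      (ContinuousLinearMap.fst ℝ (Vn n) (Vn n)).hasFDerivAt.comp q hdL.hasFDerivAt
    have h2 : HasFDerivAt (fun q => (L i q).2)
        ((ContinuousLinearMap.snd ℝ (Vn n) (Vn n)).comp (fderiv ℝ (L i) q)) q :=
      (ContinuousLinearMap.snd ℝ (Vn n) (Vn n)).hasFDerivAt.comp q hdL.hasFDerivAt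
    exact h1.add (hdT.hasFDerivAt.smul h2)
  have key : ∀ δ : Vn n, ∃ (ξ : Qn n) (c : ℝ),
      fderiv ℝ (fun q => pos (τ i q) (L i q)) q ξ = δ + c • (L i q).2 := by
    intro δ
    obtain ⟨ξ, hξ⟩ := h.surj hi.le hq (δ, 0)
    refine ⟨ξ, fderiv ℝ (τ i) q ξ, ?_⟩
    rw [hA.fderiv]
    simp only [add_apply, ContinuousLinearMap.comp_apply, smul_apply,
      ContinuousLinearMap.smulRight_apply, hξ, ContinuousLinearMap.coe_fst',
      ContinuousLinearMap.coe_snd', smul_zero, zero_add]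
  obtain ⟨δ₁, δ₂, hδ⟩ := exists_two_mod hn hv
  obtain ⟨ξ, c₁, h1⟩ := key δ₁
  obtain ⟨η, c₂, h2⟩ := key δ₂
  refine ⟨ξ, η, ?_⟩
  rw [LinearIndependent.pair_iff]
  intro a b hab
  rw [h1, h2] at hab
  refine hδ a b (a * c₁ + b * c₂) ?_
  rw [← hab]
  simp only [smul_add, add_smul, smul_smul]
  abel

end InvC
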