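import Pool.Agent.Lib_helper32.InvC.BranchB

/-!
PART T of Theorem C, preparations: normals at smooth points, countable families of mirror data.
-/

set_option autoImplicit false

namespace InvC

open Set Filter Topology MeasureTheory Asymptotics
open scoped RealInnerProductSpace ContDiff Gradient

variable {n : ℕ}

lemma inner_grad (f : Vn n → ℝ) (a τ : Vn n) : ⟪∇ f a, τ⟫ = fderiv ℝ f a τ := by
  rw [gradient, InnerProductSpace.toDual_symm_apply]

/-- the tangent vectors of a smooth hypersurface are orthogonal to the gradient -/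
lemma grad_tangent {S W : Set (Vn n)} {f : Vn n → ℝ} (h : LocalEq S W f) {a : Vn n} (ha : a ∈ W)
    (haS : a ∈ S) {τ : Vn n} (hτ : τ ∈ tangentConeAt ℝ S a) : ⟪∇ f a, τ⟫ = 0 := by
  obtain ⟨ι, l, hl, c, d, hd0, hds, hcd⟩ := exists_fun_of_mem_tangentConeAt hτ
  have hWa : W ∈ 𝓝 a := h.isOpen.mem_nhds ha
  have hdiff : DifferentiableAt ℝ f a := (h.smooth.contDiffAt hWa).differentiableAt (by simp)
  have h1 : HasFDerivWithinAt f (fderiv ℝ f a) (S ∩ W) a := hdiff.hasFDerivAt.hasFDerivWithinAt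
  have h2 : Tendsto (fun k => a + d k) l (𝓝 a) := by
    simpa using (tendsto_const_nhds (x := a)).add hd0
  have hds' : ∀ᶠ k in l, a + d k ∈ S ∩ W := hds.and (h2.eventually hWa)
  have h3 := h1.lim hd0 hds' hcd
  have h4 : ∀ᶠ k in l, c k • (f (a + d k) - f a) = 0 := by
    filter_upwards [hds'] with k hk
    rw [(h.zero _ hk.2).1 hk.1, (h.zero _ ha).1 haS, sub_zero, smul_zero]
  have h5 : Tendsto (fun k => c k • (f (a + d k) - f a)) l (𝓝 0) :=
    (tendsto_congr' h4).2 tendsto_const_nhds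
  rw [inner_grad]
  exact tendsto_nhds_unique h3 h5

/-- the unit normals of a smooth hypersurface -/
lemma normal_eq {S W : Set (Vn n)} {f : Vn n → ℝ} (h : LocalEq S W f) {a m : Vn n} (ha : a ∈ W)
    (hm : IsNormal S a m) : ∃ c : ℝ, c ^ 2 = 1 ∧ m = (c * ‖∇ f a‖⁻¹) • ∇ f a := by
  obtain ⟨hm1, haS, hT⟩ := hm
  have h0 : ∇ f a ≠ 0 := h.regular a ha
  have h0' : ‖∇ f a‖ ≠ 0 := norm_ne_zero_iff.mpr h0
  set w := ∇ f a with hw
  have h1 : ∀ τ : Vn n, ⟪m, τ⟫ = 0 → ⟪w, τ⟫ = 0 := by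
    intro τ hτ
    exact grad_tangent h ha haS (by rw [hT]; exact hτ)
  have hmm : ⟪m, m⟫ = 1 := by rw [real_inner_self_eq_norm_sq, hm1]; norm_num
  -- `w = ⟪m, w⟫ m`
  have h2 : w = ⟪m, w⟫ • m := by
    have h3 : ⟪m, w - ⟪m, w⟫ • m⟫ = 0 := by
      rw [inner_sub_right, real_inner_smul_right, hmm, mul_one, sub_self]
    have h4 := h1 _ h3
    have h5 : ⟪w - ⟪m, w⟫ • m, w - ⟪m, w⟫ • m⟫ = 0 := by
      rw [inner_sub_left, h4, real_inner_smul_left, h3, mul_zero, sub_zero]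
    exact sub_eq_zero.mp (inner_self_eq_zero.mp h5)
  set c := ⟪m, w⟫ with hc
  have h6 : ‖w‖ = |c| := by
    conv_lhs => rw [h2]
    rw [norm_smul, hm1, mul_one, Real.norm_eq_abs]
  have hc0 : c ≠ 0 := by
    intro h7
    rw [h7, abs_zero] at h6
    exact h0' h6
  refine ⟨c * ‖w‖⁻¹, ?_, ?_⟩
  · rw [h6, mul_pow, inv_pow, sq_abs]
    exact mul_inv_cancel₀ (pow_ne_zero 2 hc0)
  · have h8 : (c * ‖w‖⁻¹ * ‖w‖⁻¹) • w = (c * ‖w‖⁻¹ * ‖w‖⁻¹ * c) • m := by
      rw [mul_smul _ c m]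
      exact congrArg (fun z => (c * ‖w‖⁻¹ * ‖w‖⁻¹) • z) h2
    rw [h8]
    have h9 : c * ‖w‖⁻¹ * ‖w‖⁻¹ * c = 1 := by
      rw [h6]
      have h10 : |c| ≠ 0 := abs_ne_zero.mpr hc0
      field_simp
      rw [sq_abs]
    rw [h9, one_smul]

/-- a bounce at a smooth point is a step -/
lemma bounce_step {S W : Set (Vn n)} {f : Vn n → ℝ} (h : LocalEq S W f) {τ : ℝ} {ℓ ℓ' : Qn n}
    (ha : pos τ ℓ ∈ W) (hb : Bounce S τ ℓ ℓ') : ℓ' = step f τ ℓ := by
  obtain ⟨m, hm, rfl⟩ := hb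
  obtain ⟨c, hc, hmc⟩ := normal_eq h ha hm
  have h0 : ‖∇ f (pos τ ℓ)‖ ≠ 0 := norm_ne_zero_iff.mpr (h.regular _ ha)
  have h1 : (2 * ⟪ℓ.2, m⟫) • m
      = (2 * ⟪ℓ.2, ∇ f (pos τ ℓ)⟫ / ‖∇ f (pos τ ℓ)‖ ^ 2) • ∇ f (pos τ ℓ) := by
    rw [hmc, real_inner_smul_right, smul_smul]
    congr 1
    field_simp
    rw [hc]
    ring
  simp only [step, stepN, rho]
  rw [h1]

/-- a bounce at a smooth point lies on the hypersurface -/
lemma bounce_zero {S W : Set (Vn n)} {f : Vn n → ℝ} (h : LocalEq S W f) {τ : ℝ} {ℓ ℓ' : Qn n}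
    (ha : pos τ ℓ ∈ W) (hb : Bounce S τ ℓ ℓ') : f (pos τ ℓ) = 0 := by
  obtain ⟨m, hm, -⟩ := hb
  exact (h.zero _ ha).1 hm.2.1

/-- the gradient is continuous -/
lemma continuousOn_grad {S W : Set (Vn n)} {f : Vn n → ℝ} (h : LocalEq S W f) :
    ContinuousOn (fun y => ∇ f y) W := by
  have h1 : ContinuousOn (fderiv ℝ f) W :=
    (h.smooth.fderiv_of_isOpen (m := 0) h.isOpen (by simp)).continuousOn
  exact (InnerProductSpace.toDual ℝ (Vn n)).symm.continuous.comp_continuousOn h1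

/-- the countable family of balls -/
lemma exists_balls (n : ℕ) : ∃ 𝓑 : Set (Set (Vn n)), 𝓑.Countable ∧
    (∀ b ∈ 𝓑, IsOpen b ∧ Convex ℝ b) ∧
    ∀ (a : Vn n) (U : Set (Vn n)), IsOpen U → a ∈ U → ∃ b ∈ 𝓑, a ∈ b ∧ b ⊆ U := by
  obtain ⟨s, hsc, hsd⟩ := TopologicalSpace.exists_countable_dense (Vn n)
  refine ⟨⋃ x ∈ s, ⋃ r : ℚ, {Metric.ball x (r : ℝ)}, ?_, ?_, ?_⟩
  · exact hsc.biUnion fun x _ => countable_iUnion fun r => countable_singleton _
  · intro b hb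
    simp only [mem_iUnion, mem_singleton_iff, exists_prop] at hb
    obtain ⟨x, -, r, rfl⟩ := hb
    exact ⟨Metric.isOpen_ball, convex_ball _ _⟩
  · intro a U hU haU
    obtain ⟨ε, hε, hεU⟩ := Metric.isOpen_iff.mp hU a haU
    obtain ⟨r, hr0, hr1⟩ := exists_rat_btwn (half_pos hε)
    have hr0' : (0 : ℝ) < r := hr0
    obtain ⟨x, hxs, hxa⟩ := Metric.mem_closure_iff.mp (hsd a) r hr0'
    refine ⟨Metric.ball x (r : ℝ), ?_, ?_, ?_⟩
    · simp only [mem_iUnion, mem_singleton_iff, exists_prop]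
      exact ⟨x, hxs, r, rfl⟩
    · rw [Metric.mem_ball]; exact hxa
    · intro y hy
      refine hεU ?_
      rw [Metric.mem_ball] at hy ⊢
      have h1 : dist y a ≤ dist y x + dist x a := dist_triangle _ _ _
      rw [dist_comm x a] at h1
      linarith

/-- the countable family of mirror data -/
lemma exists_data (S : Set (Vn n)) : ∃ 𝓓 : Set (Datum n), 𝓓.Countable ∧
    (∀ D ∈ 𝓓, LocalEq S D.V D.f) ∧
    ∀ (W : Set (Vn n)) (f : Vn n → ℝ) (a v : Vn n), LocalEq S W f → a ∈ W → ⟪∇ f a, v⟫ ≠ 0 →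
      ∃ D ∈ 𝓓, a ∈ D.V ∧ v ∈ D.W := by
  classical
  obtain ⟨𝓑, hBc, hB, hBb⟩ := exists_balls n
  let P : Set (Vn n) → Set (Vn n) → Prop := fun b c =>
    ∃ D : Datum n, D.V = b ∧ D.W = c ∧ LocalEq S D.V D.f
  let F : Set (Vn n) → Set (Vn n) → Set (Datum n) := fun b c =>
    if h : P b c then {h.choose} else ∅
  have hF : ∀ b c, (F b c).Countable := by
    intro b c
    by_cases h : P b c
    · simp only [F, dif_pos h]; exact countable_singleton _
    · simp only [F, dif_neg h]; exact countable_empty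
  refine ⟨⋃ b ∈ 𝓑, ⋃ c ∈ 𝓑, F b c, hBc.biUnion fun b _ => hBc.biUnion fun c _ => hF b c, ?_, ?_⟩
  · intro D hD
    simp only [mem_iUnion, exists_prop] at hD
    obtain ⟨b, -, c, -, hD⟩ := hD
    by_cases h : P b c
    · simp only [F, dif_pos h, mem_singleton_iff] at hD
      rw [hD]
      exact h.choose_spec.2.2
    · simp only [F, dif_neg h, mem_empty_iff_false] at hD
  · intro W f a v hf haW hav
    -- an open set of transversal pairs
    have hcont : ContinuousOn (fun p : Vn n × Vn n => ⟪∇ f p.1, p.2⟫) (W ×ˢ univ) := by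
      refine ContinuousOn.inner ?_ continuousOn_snd
      exact (continuousOn_grad hf).comp continuousOn_fst fun p hp => hp.1
    have hopen : IsOpen ((W ×ˢ univ) ∩ (fun p : Vn n × Vn n => ⟪∇ f p.1, p.2⟫) ⁻¹' {0}ᶜ) :=
      hcont.isOpen_inter_preimage (hf.isOpen.prod isOpen_univ) isOpen_compl_singleton
    have hmem : (a, v) ∈ ((W ×ˢ univ) ∩ (fun p : Vn n × Vn n => ⟪∇ f p.1, p.2⟫) ⁻¹' {0}ᶜ) :=
      ⟨⟨haW, mem_univ _⟩, hav⟩
    obtain ⟨U₁, U₂, hU₁, hU₂, ha₁, hv₂, hsub⟩ := isOpen_prod_iff.mp hopen a v hmem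
    obtain ⟨b, hb, hab, hbU⟩ := hBb a U₁ hU₁ ha₁
    obtain ⟨c, hc, hvc, hcU⟩ := hBb v U₂ hU₂ hv₂
    have hbW : b ⊆ W := fun y hy => (hsub (mk_mem_prod (hbU hy) hv₂)).1.1
    have hP : P b c := by
      refine ⟨⟨f, b, c, (hB b hb).1, (hB b hb).2, (hB c hc).1, hf.smooth.mono hbW, ?_⟩, rfl, rfl, ?_⟩
      · intro y hy w hw
        exact (hsub (mk_mem_prod (hbU hy) (hcU hw))).2
      · exact ⟨(hB b hb).1, hf.smooth.mono hbW, fun y hy => hf.regular y (hbW hy),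
          fun y hy => hf.zero y (hbW hy)⟩
    refine ⟨hP.choose, ?_, ?_, ?_⟩
    · simp only [mem_iUnion, exists_prop]
      refine ⟨b, hb, c, hc, ?_⟩
      simp only [F, dif_pos hP, mem_singleton_iff]
    · rw [hP.choose_spec.1]; exact hab
    · rw [hP.choose_spec.2.1]; exact hvc

/-- the countable family of local equations -/
lemma exists_eqs (S : Set (Vn n)) : ∃ 𝓔 : Set (Set (Vn n) × (Vn n → ℝ)), 𝓔.Countable ∧
    (∀ E ∈ 𝓔, LocalEq S E.1 E.2) ∧
    ∀ (W : Set (Vn n)) (f : Vn n → ℝ) (a : Vn n), LocalEq S W f → a ∈ W →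
      ∃ E ∈ 𝓔, a ∈ E.1 := by
  classical
  obtain ⟨𝓑, hBc, hB, hBb⟩ := exists_balls n
  let P : Set (Vn n) → Prop := fun b => ∃ f : Vn n → ℝ, LocalEq S b f
  let F : Set (Vn n) → Set (Set (Vn n) × (Vn n → ℝ)) := fun b =>
    if h : P b then {(b, h.choose)} else ∅
  have hF : ∀ b, (F b).Countable := by
    intro b
    by_cases h : P b
    · simp only [F, dif_pos h]; exact countable_singleton _
    · simp only [F, dif_neg h]; exact countable_empty
  refine ⟨⋃ b ∈ 𝓑, F b, hBc.biUnion fun b _ => hF b, ?_, ?_⟩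
  · intro E hE
    simp only [mem_iUnion, exists_prop] at hE
    obtain ⟨b, -, hE⟩ := hE
    by_cases h : P b
    · simp only [F, dif_pos h, mem_singleton_iff] at hE
      rw [hE]
      exact h.choose_spec
    · simp only [F, dif_neg h, mem_empty_iff_false] at hE
  · intro W f a hf haW
    obtain ⟨b, hb, hab, hbW⟩ := hBb a W hf.isOpen haW
    have hP : P b := ⟨f, (hB b hb).1, hf.smooth.mono hbW, fun y hy => hf.regular y (hbW hy),
      fun y hy => hf.zero y (hbW hy)⟩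
    refine ⟨(b, hP.choose), ?_, hab⟩
    simp only [mem_iUnion, exists_prop]
    refine ⟨b, hb, ?_⟩
    simp only [F, dif_pos hP, mem_singleton_iff]

end InvC
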