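import Pool.Agent.Lib_helper32.InvC.Ae

/-!
PART G2 of Theorem C: preimages of null sets under local diffeomorphisms are null.
-/

set_option autoImplicit false

namespace InvC

open Set Filter Topology MeasureTheory Asymptotics
open scoped RealInnerProductSpace ContDiff Gradient

variable {n : ℕ}

/-- PART G2 -/
theorem null_preimage {V : Set (Qn n)} (hV : IsOpen V) {L : Qn n → Qn n}
    (hL : ContDiffOn ℝ ∞ L V) (hs : ∀ q ∈ V, Function.Surjective (fderiv ℝ L q))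
    {N : Set (Qn n)} (hN : volume N = 0) : volume (V ∩ L ⁻¹' N) = 0 := by
  refine measure_null_of_locally_null _ fun q hq => ?_
  have hVq : V ∈ 𝓝 q := hV.mem_nhds hq.1
  have hLq : ContDiffAt ℝ 1 L q := (hL.contDiffAt hVq).of_le (by norm_cast)
  have hinj : Function.Injective (fderiv ℝ L q) :=
    (LinearMap.injective_iff_surjective (f := (fderiv ℝ L q : Qn n →ₗ[ℝ] Qn n))).2 (hs q hq.1)
  let e' : Qn n ≃L[ℝ] Qn n :=
    (LinearEquiv.ofBijective (fderiv ℝ L q : Qn n →ₗ[ℝ] Qn n) ⟨hinj, hs q hq.1⟩).toContinuousLinearEquiv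
  have he' : HasFDerivAt L (e' : Qn n →L[ℝ] Qn n) q := by
    have h1 : (e' : Qn n →L[ℝ] Qn n) = fderiv ℝ L q := by
      ext x <;> rfl
    rw [h1]
    exact (hLq.differentiableAt one_ne_zero).hasFDerivAt
  have h10 : (1 : WithTop ℕ∞) ≠ 0 := one_ne_zero
  set Φ := hLq.toOpenPartialHomeomorph L he' h10 with hΦ
  have hsrc : q ∈ Φ.source := hLq.mem_toOpenPartialHomeomorph_source he' h10
  have hg : ContDiffAt ℝ 1 (Φ.symm) (L q) := hLq.to_localInverse he' h10
  have hgev : ∀ᶠ y in 𝓝 (L q), ContDiffAt ℝ 1 Φ.symm y := hg.eventually (by simp)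
  obtain ⟨u, hu, huo, hqu⟩ := _root_.mem_nhds_iff.mp hgev
  -- the neighbourhood
  have hcont : ContinuousAt L q := hLq.continuousAt
  have hU : Φ.source ∩ L ⁻¹' u ∈ 𝓝 q :=
    inter_mem (Φ.open_source.mem_nhds hsrc) (hcont.preimage_mem_nhds (huo.mem_nhds hqu))
  refine ⟨V ∩ L ⁻¹' N ∩ (Φ.source ∩ L ⁻¹' u), inter_mem_nhdsWithin _ hU, ?_⟩
  have hsub : V ∩ L ⁻¹' N ∩ (Φ.source ∩ L ⁻¹' u) ⊆ Φ.symm '' (N ∩ u) := by
    rintro p ⟨⟨-, hpN⟩, hps, hpu⟩
    refine ⟨L p, ⟨hpN, hpu⟩, ?_⟩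
    exact Φ.left_inv hps
  refine measure_mono_null hsub ?_
  refine addHaar_image_eq_zero_of_differentiableOn_of_addHaar_eq_zero _ ?_
    (measure_mono_null inter_subset_left hN)
  intro y hy
  have h2 : ContDiffAt ℝ 1 Φ.symm y := hu hy.2
  exact (h2.differentiableAt one_ne_zero).differentiableWithinAt

end InvC
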