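import Pool.Agent.Lib_helper86.InvC.Shape

/-!
Two consecutive reflection points whose normals are coplanar with the ray between them.
-/

set_option autoImplicit false

namespace InvC

open Set Filter Topology MeasureTheory Asymptotics
open scoped RealInnerProductSpace ContDiff Gradient

variable {n : ℕ}

/-- a smooth family of rays with a smooth reflection time -/
structure Hit (V : Set (Qn n)) (ℓ : Qn n → Qn n) (s : Qn n → ℝ) (W : Set (Vn n))
    (f : Vn n → ℝ) : Prop where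
  isOpen : IsOpen V
  smoothl : ContDiffOn ℝ ∞ ℓ V
  smooths : ContDiffOn ℝ ∞ s V
  surj : ∀ q ∈ V, Function.Surjective (fderiv ℝ ℓ q)
  openW : IsOpen W
  smoothf : ContDiffOn ℝ ∞ f W
  reg : ∀ y ∈ W, ∇ f y ≠ 0
  mem : ∀ q ∈ V, pos (s q) (ℓ q) ∈ W
  zero : ∀ q ∈ V, f (pos (s q) (ℓ q)) = 0
  trans : ∀ q ∈ V, ⟪∇ f (pos (s q) (ℓ q)), (ℓ q).2⟫ ≠ 0

variable {V : Set (Qn n)} {ℓ : Qn n → Qn n} {s t : Qn n → ℝ} {W W' : Set (Vn n)}
  {f g : Vn n → ℝ}

/-- the reflection point -/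
abbrev ptA (ℓ : Qn n → Qn n) (s : Qn n → ℝ) (q : Qn n) : Vn n := pos (s q) (ℓ q)

/-- the unit normal at the reflection point -/
noncomputable abbrev nuA (f : Vn n → ℝ) (ℓ : Qn n → Qn n) (s : Qn n → ℝ) (q : Qn n) : Vn n :=
  unitNormal f (pos (s q) (ℓ q))

/-- the tangential part of the direction -/
noncomputable def uu (f : Vn n → ℝ) (ℓ : Qn n → Qn n) (s : Qn n → ℝ) (q : Qn n) : Vn n :=
  (ℓ q).2 - ⟪(ℓ q).2, nuA f ℓ s q⟫ • nuA f ℓ s q

lemma line_tendsto (q h : Qn n) : Tendsto (fun τ : ℝ => q + τ • h) (𝓝 0) (𝓝 q) := by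
  have : Continuous fun τ : ℝ => q + τ • h := by fun_prop
  simpa using this.tendsto 0

/-- the motion of the reflection point along a line of states -/
lemma Hit.deriv (H : Hit V ℓ s W f) {q : Qn n} (hq : q ∈ V) {h X : Qn n}
    (hX : fderiv ℝ ℓ q h = X) : ∃ c : ℝ,
      HasDerivAt (fun τ : ℝ => ptA ℓ s (q + τ • h)) (X.1 + s q • X.2 + c • (ℓ q).2) 0 ∧
      ⟪∇ f (ptA ℓ s q), X.1 + s q • X.2 + c • (ℓ q).2⟫ = 0 := by
  have hVq : V ∈ 𝓝 q := H.isOpen.mem_nhds hq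
  have hdl : DifferentiableAt ℝ ℓ q := (H.smoothl.contDiffAt hVq).differentiableAt (by simp)
  have hds : DifferentiableAt ℝ s q := (H.smooths.contDiffAt hVq).differentiableAt (by simp)
  have h1 := hasDerivAt_line hdl h
  rw [hX] at h1
  have h2 := hasDerivAt_line hds h
  refine ⟨fderiv ℝ s q h, ?_⟩
  have h3 : HasDerivAt (fun τ : ℝ => ptA ℓ s (q + τ • h))
      (X.1 + s q • X.2 + (fderiv ℝ s q h) • (ℓ q).2) 0 := by
    have h4 := (hd_fst h1).add (h2.smul (hd_snd h1))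
    simp only [zero_smul, add_zero] at h4
    rw [add_assoc]
    exact h4
  refine ⟨h3, ?_⟩
  have hWa : W ∈ 𝓝 (ptA ℓ s q) := H.openW.mem_nhds (H.mem q hq)
  have h5 : HasFDerivAt f (fderiv ℝ f (ptA ℓ s q)) (ptA ℓ s (q + (0 : ℝ) • h)) := by
    rw [zero_smul, add_zero]
    exact ((H.smoothf.contDiffAt hWa).differentiableAt (by simp)).hasFDerivAt
  have h6 := h5.comp_hasDerivAt (0 : ℝ) h3
  have h7 : HasDerivAt (fun τ : ℝ => f (ptA ℓ s (q + τ • h))) 0 0 := by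
    refine (hasDerivAt_const (0 : ℝ) (0 : ℝ)).congr_of_eventuallyEq ?_
    filter_upwards [(line_tendsto q h) hVq] with τ hτ
    exact H.zero _ hτ
  have h8 := h6.unique h7
  rw [gradient, InnerProductSpace.toDual_symm_apply]
  exact h8

/-- the derivative of the unit normal along a line of states -/
lemma Hit.deriv_nu (H : Hit V ℓ s W f) {q : Qn n} (hq : q ∈ V) {h : Qn n} {A' : Vn n}
    (hA : HasDerivAt (fun τ : ℝ => ptA ℓ s (q + τ • h)) A' 0) :
    HasDerivAt (fun τ : ℝ => nuA f ℓ s (q + τ • h)) (fderiv ℝ (unitNormal f) (ptA ℓ s q) A') 0 := by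
  have hWa : W ∈ 𝓝 (ptA ℓ s q) := H.openW.mem_nhds (H.mem q hq)
  have h5 : HasFDerivAt (unitNormal f) (fderiv ℝ (unitNormal f) (ptA ℓ s q))
      (ptA ℓ s (q + (0 : ℝ) • h)) := by
    rw [zero_smul, add_zero]
    exact (((unitNormal_smooth H.openW H.smoothf H.reg).contDiffAt hWa).differentiableAt
      (by simp)).hasFDerivAt
  exact h5.comp_hasDerivAt (0 : ℝ) hA

/-- orthogonality to the gradient and to the unit normal -/
lemma inner_unit_iff {y ξ : Vn n} (h : ∇ f y ≠ 0) : ⟪unitNormal f y, ξ⟫ = 0 ↔ ⟪∇ f y, ξ⟫ = 0 := by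
  simp only [unitNormal]
  rw [real_inner_smul_left]
  constructor
  · intro h1
    rcases mul_eq_zero.mp h1 with h2 | h2
    · exact absurd h2 (inv_ne_zero (norm_ne_zero_iff.mpr h))
    · exact h2
  · intro h1; rw [h1, mul_zero]

/-- variation with fixed reflection point and moving direction -/
lemma Hit.var_dir (H : Hit V ℓ s W f) {q : Qn n} (hq : q ∈ V) (δ : Vn n) : ∃ h : Qn n,
    HasDerivAt (fun τ : ℝ => ptA ℓ s (q + τ • h)) 0 0 ∧
    HasDerivAt (fun τ : ℝ => (ℓ (q + τ • h)).2) δ 0 := by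
  have hVq : V ∈ 𝓝 q := H.isOpen.mem_nhds hq
  have hdl : DifferentiableAt ℝ ℓ q := (H.smoothl.contDiffAt hVq).differentiableAt (by simp)
  obtain ⟨h, hh⟩ := H.surj q hq (-(s q • δ), δ)
  obtain ⟨c, h1, h2⟩ := H.deriv hq hh
  refine ⟨h, ?_, ?_⟩
  · simp only [neg_add_cancel, zero_add] at h1 h2
    rw [real_inner_smul_right] at h2
    have hc : c = 0 := by
      rcases mul_eq_zero.mp h2 with h3 | h3
      · exact h3
      · exact absurd h3 (H.trans q hq)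
    rw [hc, zero_smul] at h1
    exact h1
  · have h3 := hd_snd (hasDerivAt_line hdl h)
    rw [hh] at h3
    exact h3

/-- variation with one fixed reflection point -/
lemma Hit.var_pt (H : Hit V ℓ s W f) (H' : Hit V ℓ t W' g) {q : Qn n} (hq : q ∈ V)
    (hst : s q ≠ t q) {ξ : Vn n} (hξ : ⟪∇ f (ptA ℓ s q), ξ⟫ = 0) : ∃ h : Qn n,
    HasDerivAt (fun τ : ℝ => ptA ℓ s (q + τ • h)) ξ 0 ∧
    HasDerivAt (fun τ : ℝ => ptA ℓ t (q + τ • h)) 0 0 ∧
    HasDerivAt (fun τ : ℝ => (ℓ (q + τ • h)).2) ((s q - t q)⁻¹ • ξ) 0 := by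
  have hVq : V ∈ 𝓝 q := H.isOpen.mem_nhds hq
  have hdl : DifferentiableAt ℝ ℓ q := (H.smoothl.contDiffAt hVq).differentiableAt (by simp)
  have hst' : s q - t q ≠ 0 := sub_ne_zero.mpr hst
  obtain ⟨h, hh⟩ := H.surj q hq (-(t q • (s q - t q)⁻¹ • ξ), (s q - t q)⁻¹ • ξ)
  obtain ⟨c, h1, h2⟩ := H.deriv hq hh
  obtain ⟨c', h1', h2'⟩ := H'.deriv hq hh
  refine ⟨h, ?_, ?_, ?_⟩
  · have e1 : -(t q • (s q - t q)⁻¹ • ξ) + s q • (s q - t q)⁻¹ • ξ = ξ := by
      rw [smul_smul, smul_smul, ← neg_smul, ← add_smul]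
      have : -(t q * (s q - t q)⁻¹) + s q * (s q - t q)⁻¹ = 1 := by
        field_simp
        ring
      rw [this, one_smul]
    simp only [e1] at h1 h2
    rw [inner_add_right, hξ, zero_add, real_inner_smul_right] at h2
    have hc : c = 0 := by
      rcases mul_eq_zero.mp h2 with h3 | h3
      · exact h3
      · exact absurd h3 (H.trans q hq)
    rw [hc, zero_smul, add_zero] at h1
    exact h1
  · simp only [neg_add_cancel, zero_add] at h1' h2'
    rw [real_inner_smul_right] at h2'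
    have hc : c' = 0 := by
      rcases mul_eq_zero.mp h2' with h3 | h3
      · exact h3
      · exact absurd h3 (H'.trans q hq)
    rw [hc, zero_smul] at h1'
    exact h1'
  · have h3 := hd_snd (hasDerivAt_line hdl h)
    rw [hh] at h3
    exact h3

lemma Hit.smooth_pt (H : Hit V ℓ s W f) : ContDiffOn ℝ ∞ (ptA ℓ s) V := by
  have h1 : ContDiffOn ℝ ∞ (fun q => (ℓ q).1) V := contDiff_fst.comp_contDiffOn H.smoothl
  have h2 : ContDiffOn ℝ ∞ (fun q => (ℓ q).2) V := contDiff_snd.comp_contDiffOn H.smoothl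
  exact h1.add (H.smooths.smul h2)

lemma Hit.smooth_dir (H : Hit V ℓ s W f) : ContDiffOn ℝ ∞ (fun q => (ℓ q).2) V :=
  contDiff_snd.comp_contDiffOn H.smoothl

lemma Hit.smooth_nu (H : Hit V ℓ s W f) : ContDiffOn ℝ ∞ (nuA f ℓ s) V :=
  (unitNormal_smooth H.openW H.smoothf H.reg).comp H.smooth_pt H.mem

lemma Hit.smooth_uu (H : Hit V ℓ s W f) : ContDiffOn ℝ ∞ (uu f ℓ s) V :=
  H.smooth_dir.sub ((H.smooth_dir.inner ℝ H.smooth_nu).smul H.smooth_nu)

lemma Hit.norm_nu (H : Hit V ℓ s W f) {q : Qn n} (hq : q ∈ V) : ‖nuA f ℓ s q‖ = 1 :=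
  norm_unit_eq (H.reg _ (H.mem q hq))

lemma Hit.inner_nu_nu (H : Hit V ℓ s W f) {q : Qn n} (hq : q ∈ V) :
    ⟪nuA f ℓ s q, nuA f ℓ s q⟫ = 1 := by
  rw [real_inner_self_eq_norm_sq, H.norm_nu hq, one_pow]

lemma Hit.inner_uu (H : Hit V ℓ s W f) {q : Qn n} (hq : q ∈ V) :
    ⟪nuA f ℓ s q, uu f ℓ s q⟫ = 0 := by
  simp only [uu]
  rw [inner_sub_right, real_inner_smul_right, H.inner_nu_nu hq, mul_one, real_inner_comm, sub_self]

/-- derivative of the tangential part -/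
lemma deriv_uu {q h : Qn n} {E N' : Vn n}
    (he : HasDerivAt (fun τ : ℝ => (ℓ (q + τ • h)).2) E 0)
    (hN : HasDerivAt (fun τ : ℝ => nuA f ℓ s (q + τ • h)) N' 0) :
    HasDerivAt (fun τ : ℝ => uu f ℓ s (q + τ • h))
      (E - (⟪(ℓ q).2, nuA f ℓ s q⟫ • N' +
        (⟪(ℓ q).2, N'⟫ + ⟪E, nuA f ℓ s q⟫) • nuA f ℓ s q)) 0 := by
  have h1 := he.sub ((he.inner ℝ hN).smul hN)
  simp only [zero_smul, add_zero] at h1
  exact h1

/-- normal incidence is a null set -/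
theorem Hit.normal_null (H : Hit V ℓ s W f) (hn : 2 ≤ n) :
    volume {q ∈ V | uu f ℓ s q = 0} = 0 := by
  refine measure_mono_null ?_ (ae_fderiv_zero H.isOpen H.smooth_uu)
  rintro q ⟨hq, h0⟩
  refine ⟨hq, h0, fun hD => ?_⟩
  -- a tangent vector
  obtain ⟨δ, hδ0, hδ⟩ : ∃ δ : Vn n, δ ≠ 0 ∧ ⟪nuA f ℓ s q, δ⟫ = 0 := by
    have hker : LinearMap.ker (innerSL ℝ (nuA f ℓ s q) : Vn n →ₗ[ℝ] ℝ) ≠ ⊥ :=
      LinearMap.ker_ne_bot_of_finrank_lt (by simp; omega)
    obtain ⟨δ, hδ, hδ0⟩ := Submodule.exists_mem_ne_zero_of_ne_bot hker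
    exact ⟨δ, hδ0, by simpa using hδ⟩
  obtain ⟨h, h1, h2⟩ := H.var_dir hq δ
  have h3 := H.deriv_nu hq h1
  rw [map_zero] at h3
  have h4 := deriv_uu h2 h3
  have hVq : V ∈ 𝓝 q := H.isOpen.mem_nhds hq
  have h5 := hasDerivAt_line ((H.smooth_uu.contDiffAt hVq).differentiableAt (by simp)) h
  rw [hD] at h5
  have h6 := h4.unique h5
  rw [smul_zero, inner_zero_right, zero_add, zero_add, real_inner_comm, hδ, zero_smul,
    sub_zero] at h6
  exact hδ0 h6

end InvC
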