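import Pool.Agent.Lib_helper86.InvC.Pair

/-!
If the normals at two consecutive reflection points are coplanar with the ray, then almost
everywhere the shape operators are scalar.
-/

set_option autoImplicit false

namespace InvC

open Set Filter Topology MeasureTheory Asymptotics
open scoped RealInnerProductSpace ContDiff Gradient

variable {n : ℕ} {V : Set (Qn n)} {ℓ : Qn n → Qn n} {s t : Qn n → ℝ} {W W' : Set (Vn n)}
  {f g : Vn n → ℝ}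

/-- the defect of coplanarity -/
noncomputable def rr (f g : Vn n → ℝ) (ℓ : Qn n → Qn n) (s t : Qn n → ℝ) (q : Qn n) : Vn n :=
  nuA g ℓ t q - ⟪nuA g ℓ t q, nuA f ℓ s q⟫ • nuA f ℓ s q -
    (⟪nuA g ℓ t q, uu f ℓ s q⟫ * (‖uu f ℓ s q‖ ^ 2)⁻¹) • uu f ℓ s q

/-- the image of the tangential part under the shape operator -/
noncomputable def su (f : Vn n → ℝ) (ℓ : Qn n → Qn n) (s : Qn n → ℝ) (q : Qn n) : Vn n :=
  fderiv ℝ (unitNormal f) (ptA ℓ s q) (uu f ℓ s q)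

/-- the defect of the tangential part to be an eigenvector -/
noncomputable def gg (f : Vn n → ℝ) (ℓ : Qn n → Qn n) (s : Qn n → ℝ) (q : Qn n) : Vn n :=
  su f ℓ s q - (⟪su f ℓ s q, uu f ℓ s q⟫ * (‖uu f ℓ s q‖ ^ 2)⁻¹) • uu f ℓ s q

lemma Hit.mono (H : Hit V ℓ s W f) {V' : Set (Qn n)} (hV' : IsOpen V') (hs : V' ⊆ V) :
    Hit V' ℓ s W f where
  isOpen := hV'
  smoothl := H.smoothl.mono hs
  smooths := H.smooths.mono hs
  surj := fun q hq => H.surj q (hs hq)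
  openW := H.openW
  smoothf := H.smoothf
  reg := H.reg
  mem := fun q hq => H.mem q (hs hq)
  zero := fun q hq => H.zero q (hs hq)
  trans := fun q hq => H.trans q (hs hq)

lemma smooth_rr (H : Hit V ℓ s W f) (H' : Hit V ℓ t W' g) (hu : ∀ q ∈ V, uu f ℓ s q ≠ 0) :
    ContDiffOn ℝ ∞ (rr f g ℓ s t) V := by
  have h1 : ContDiffOn ℝ ∞ (fun q => (‖uu f ℓ s q‖ ^ 2)⁻¹) V :=
    (H.smooth_uu.norm_sq ℝ).inv fun q hq => pow_ne_zero 2 (norm_ne_zero_iff.mpr (hu q hq))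
  exact (H'.smooth_nu.sub ((H'.smooth_nu.inner ℝ H.smooth_nu).smul H.smooth_nu)).sub
    (((H'.smooth_nu.inner ℝ H.smooth_uu).mul h1).smul H.smooth_uu)

lemma smooth_su (H : Hit V ℓ s W f) : ContDiffOn ℝ ∞ (su f ℓ s) V := by
  have h1 : ContDiffOn ℝ ∞ (fderiv ℝ (unitNormal f)) W :=
    (unitNormal_smooth H.openW H.smoothf H.reg).fderiv_of_isOpen H.openW (by simp)
  exact (h1.comp H.smooth_pt H.mem).clm_apply H.smooth_uu

lemma smooth_gg (H : Hit V ℓ s W f) (hu : ∀ q ∈ V, uu f ℓ s q ≠ 0) :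
    ContDiffOn ℝ ∞ (gg f ℓ s) V := by
  have h1 : ContDiffOn ℝ ∞ (fun q => (‖uu f ℓ s q‖ ^ 2)⁻¹) V :=
    (H.smooth_uu.norm_sq ℝ).inv fun q hq => pow_ne_zero 2 (norm_ne_zero_iff.mpr (hu q hq))
  exact (smooth_su H).sub ((((smooth_su H).inner ℝ H.smooth_uu).mul h1).smul H.smooth_uu)

/-- first derivative: the shape operator is scalar modulo the tangential part -/
lemma first_order (H : Hit V ℓ s W f) (H' : Hit V ℓ t W' g) (hu : ∀ q ∈ V, uu f ℓ s q ≠ 0)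
    {q : Qn n} (hq : q ∈ V) (hst : s q ≠ t q) (hr : rr f g ℓ s t q = 0)
    (hD : fderiv ℝ (rr f g ℓ s t) q = 0) (hM : ∀ c : ℝ, nuA g ℓ t q ≠ c • (ℓ q).2) :
    ∃ μ : ℝ, ∀ ξ : Vn n, ⟪nuA f ℓ s q, ξ⟫ = 0 → ∃ c : ℝ,
      fderiv ℝ (unitNormal f) (ptA ℓ s q) ξ = μ • ξ + c • uu f ℓ s q := by
  have hVq : V ∈ 𝓝 q := H.isOpen.mem_nhds hq
  set N := nuA f ℓ s q with hN
  set M := nuA g ℓ t q with hMd
  set e := (ℓ q).2 with he
  set u := uu f ℓ s q with hud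
  have hu0 : u ≠ 0 := hu q hq
  have hNN : ⟪N, N⟫ = 1 := H.inner_nu_nu hq
  have hNu : ⟪N, u⟫ = 0 := H.inner_uu hq
  have hue : u = e - ⟪e, N⟫ • N := rfl
  set a := ⟪M, N⟫ with ha
  set b := ⟪M, u⟫ * (‖u‖ ^ 2)⁻¹ with hb
  have hMe : M = a • N + b • u := by
    have h1 : M - a • N - b • u = 0 := hr
    rw [sub_sub, sub_eq_zero] at h1
    exact h1
  set γ := a - b * ⟪e, N⟫ with hγ
  have hγ0 : γ ≠ 0 := by
    intro h0
    apply hM b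
    have h1 : a = b * ⟪e, N⟫ := by linarith
    rw [hMe, h1, hue, smul_sub, smul_smul]
    abel
  have hst' : s q - t q ≠ 0 := sub_ne_zero.mpr hst
  refine ⟨-(b * (s q - t q)⁻¹ * γ⁻¹), fun ξ hξ => ?_⟩
  have hreg := H.reg _ (H.mem q hq)
  obtain ⟨h, h1, h2, h3⟩ := H.var_pt H' hq hst ((inner_unit_iff hreg).1 hξ)
  set Sξ := fderiv ℝ (unitNormal f) (ptA ℓ s q) ξ with hSξ
  have hSN : ⟪Sξ, N⟫ = 0 := shape_orth H.openW H.smoothf H.reg (H.mem q hq) ξ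
  -- derivatives
  have dN : HasDerivAt (fun τ : ℝ => nuA f ℓ s (q + τ • h)) Sξ 0 := H.deriv_nu hq h1
  have dM : HasDerivAt (fun τ : ℝ => nuA g ℓ t (q + τ • h)) 0 0 := by
    have h4 := H'.deriv_nu hq h2
    rw [map_zero] at h4
    exact h4
  have du := deriv_uu h3 dN
  have hnb : DifferentiableAt ℝ (fun p => (‖uu f ℓ s p‖ ^ 2)⁻¹) q := by
    have h4 : ContDiffOn ℝ ∞ (fun q => (‖uu f ℓ s q‖ ^ 2)⁻¹) V :=
      (H.smooth_uu.norm_sq ℝ).inv fun q hq => pow_ne_zero 2 (norm_ne_zero_iff.mpr (hu q hq))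
    exact (h4.contDiffAt hVq).differentiableAt (by simp)
  have dnb := hasDerivAt_line hnb h
  set ν := fderiv ℝ (fun p => (‖uu f ℓ s p‖ ^ 2)⁻¹) q h with hν
  set u' := (s q - t q)⁻¹ • ξ - (⟪e, N⟫ • Sξ + (⟪e, Sξ⟫ + ⟪(s q - t q)⁻¹ • ξ, N⟫) • N) with hu'
  have dr := (dM.sub ((dM.inner ℝ dN).smul dN)).sub (((dM.inner ℝ du).fun_mul dnb).smul du)
  have dr2 := hasDerivAt_line
    (((smooth_rr H H' hu).contDiffAt hVq).differentiableAt (by simp)) h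
  rw [hD] at dr2
  have heq := HasDerivAt.unique dr dr2
  simp only [zero_smul, add_zero, inner_zero_left, zero_apply] at heq
  -- abbreviate the scalar coefficients
  obtain ⟨a', b', hab⟩ : ∃ a' b' : ℝ, a • Sξ + a' • N + (b • u' + b' • u) = 0 := by
    refine ⟨⟪M, Sξ⟫, ⟪M, u'⟫ * (‖u‖ ^ 2)⁻¹ + ⟪M, u⟫ * ν, ?_⟩
    have h5 : (0 : Vn n) - (a • Sξ + ⟪M, Sξ⟫ • N) - (b • u' +
        (⟪M, u'⟫ * (‖u‖ ^ 2)⁻¹ + ⟪M, u⟫ * ν) • u) = 0 := heq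
    have h6 : a • Sξ + ⟪M, Sξ⟫ • N + (b • u' + (⟪M, u'⟫ * (‖u‖ ^ 2)⁻¹ + ⟪M, u⟫ * ν) • u)
      = -((0 : Vn n) - (a • Sξ + ⟪M, Sξ⟫ • N) - (b • u' +
        (⟪M, u'⟫ * (‖u‖ ^ 2)⁻¹ + ⟪M, u⟫ * ν) • u)) := by abel
    rw [h6, h5, neg_zero]
  have hξN : ⟪ξ, N⟫ = 0 := by rw [real_inner_comm]; exact hξ
  have huN : ⟪u, N⟫ = 0 := by rw [real_inner_comm]; exact hNu
  set k := ⟪e, Sξ⟫ + ⟪(s q - t q)⁻¹ • ξ, N⟫ with hk
  have hvec : γ • Sξ + (b * (s q - t q)⁻¹) • ξ + b' • u + (a' - b * k) • N = 0 := by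
    rw [← hab, hu', hγ]
    simp only [smul_sub, smul_add, smul_smul, sub_smul]
    abel
  have hN0 : a' - b * k = 0 := by
    have h7 := congrArg (fun z : Vn n => ⟪z, N⟫) hvec
    simp only [inner_add_left, real_inner_smul_left, hSN, hξN, huN, hNN, mul_zero, mul_one,
      zero_add, inner_zero_left] at h7
    exact h7
  rw [hN0, zero_smul, add_zero] at hvec
  refine ⟨-(b' * γ⁻¹), ?_⟩
  have h8 : γ • Sξ = -((b * (s q - t q)⁻¹) • ξ) - b' • u := by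
    have h9 : γ • Sξ = (γ • Sξ + (b * (s q - t q)⁻¹) • ξ + b' • u) -
      ((b * (s q - t q)⁻¹) • ξ) - b' • u := by abel
    rw [h9, hvec]
    abel
  have h10 : Sξ = γ⁻¹ • (γ • Sξ) := by rw [smul_smul, inv_mul_cancel₀ hγ0, one_smul]
  rw [h10, h8, smul_sub, smul_neg, smul_smul, smul_smul, neg_smul, neg_smul, sub_eq_add_neg]
  congr 2
  · congr 1; ring
  · congr 1; ring

/-- second derivative -/
lemma second_order (H : Hit V ℓ s W f) (hu : ∀ q ∈ V, uu f ℓ s q ≠ 0)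
    {q : Qn n} (hq : q ∈ V) (hD : fderiv ℝ (gg f ℓ s) q = 0) {δ : Vn n}
    (hδ : ⟪nuA f ℓ s q, δ⟫ = 0) : ∃ c : ℝ, fderiv ℝ (unitNormal f) (ptA ℓ s q) δ
      = (⟪su f ℓ s q, uu f ℓ s q⟫ * (‖uu f ℓ s q‖ ^ 2)⁻¹) • δ + c • uu f ℓ s q := by
  have hVq : V ∈ 𝓝 q := H.isOpen.mem_nhds hq
  obtain ⟨h, h1, h2⟩ := H.var_dir hq δ
  have dN : HasDerivAt (fun τ : ℝ => nuA f ℓ s (q + τ • h)) 0 0 := by
    have h3 := H.deriv_nu hq h1
    rw [map_zero] at h3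
    exact h3
  have du : HasDerivAt (fun τ : ℝ => uu f ℓ s (q + τ • h)) δ 0 := by
    have h4 := deriv_uu h2 dN
    rw [smul_zero, inner_zero_right, zero_add, zero_add, real_inner_comm, hδ, zero_smul,
      sub_zero] at h4
    exact h4
  have hWa : W ∈ 𝓝 (ptA ℓ s q) := H.openW.mem_nhds (H.mem q hq)
  have dS : HasDerivAt (fun τ : ℝ => fderiv ℝ (unitNormal f) (ptA ℓ s (q + τ • h))) 0 0 := by
    have h5 : HasFDerivAt (fderiv ℝ (unitNormal f))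
        (fderiv ℝ (fderiv ℝ (unitNormal f)) (ptA ℓ s q)) (ptA ℓ s (q + (0 : ℝ) • h)) := by
      rw [zero_smul, add_zero]
      have h6 : ContDiffOn ℝ ∞ (fderiv ℝ (unitNormal f)) W :=
        (unitNormal_smooth H.openW H.smoothf H.reg).fderiv_of_isOpen H.openW (by simp)
      exact ((h6.contDiffAt hWa).differentiableAt (by simp)).hasFDerivAt
    have h7 := h5.comp_hasDerivAt (0 : ℝ) h1
    rw [map_zero] at h7
    exact h7
  have dsu : HasDerivAt (fun τ : ℝ => su f ℓ s (q + τ • h))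
      (fderiv ℝ (unitNormal f) (ptA ℓ s q) δ) 0 := by
    have h8 := dS.clm_apply du
    simp only [zero_smul, add_zero, zero_apply, zero_add] at h8
    exact h8
  have hnb : DifferentiableAt ℝ (fun p => (‖uu f ℓ s p‖ ^ 2)⁻¹) q := by
    have h4 : ContDiffOn ℝ ∞ (fun q => (‖uu f ℓ s q‖ ^ 2)⁻¹) V :=
      (H.smooth_uu.norm_sq ℝ).inv fun q hq => pow_ne_zero 2 (norm_ne_zero_iff.mpr (hu q hq))
    exact (h4.contDiffAt hVq).differentiableAt (by simp)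
  have dnb := hasDerivAt_line hnb h
  have dg := dsu.sub (((dsu.inner ℝ du).fun_mul dnb).smul du)
  have dg2 := hasDerivAt_line
    (((smooth_gg H hu).contDiffAt hVq).differentiableAt (by simp)) h
  rw [hD] at dg2
  have heq := HasDerivAt.unique dg dg2
  simp only [zero_smul, add_zero, zero_apply] at heq
  refine ⟨(⟪su f ℓ s q, δ⟫ + ⟪fderiv ℝ (unitNormal f) (ptA ℓ s q) δ, uu f ℓ s q⟫) *
    (‖uu f ℓ s q‖ ^ 2)⁻¹ + ⟪su f ℓ s q, uu f ℓ s q⟫ *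
      fderiv ℝ (fun p => (‖uu f ℓ s p‖ ^ 2)⁻¹) q h, ?_⟩
  exact sub_eq_zero.mp heq

/-- the two conclusions together: the shape operator is scalar -/
lemma scalar_of_orders (hn : 3 ≤ n) (H : Hit V ℓ s W f) {q : Qn n} (hq : q ∈ V)
    (hu0 : uu f ℓ s q ≠ 0) {μ ρ : ℝ}
    (h1 : ∀ ξ : Vn n, ⟪nuA f ℓ s q, ξ⟫ = 0 → ∃ c : ℝ,
      fderiv ℝ (unitNormal f) (ptA ℓ s q) ξ = μ • ξ + c • uu f ℓ s q)
    (h2 : ∀ δ : Vn n, ⟪nuA f ℓ s q, δ⟫ = 0 → ∃ c : ℝ,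
      fderiv ℝ (unitNormal f) (ptA ℓ s q) δ = ρ • δ + c • uu f ℓ s q)
    (h3 : fderiv ℝ (unitNormal f) (ptA ℓ s q) (uu f ℓ s q) = ρ • uu f ℓ s q) :
    ∀ ξ : Vn n, ⟪nuA f ℓ s q, ξ⟫ = 0 → fderiv ℝ (unitNormal f) (ptA ℓ s q) ξ = ρ • ξ := by
  set N := nuA f ℓ s q with hN
  set u := uu f ℓ s q with hu
  have hNu : ⟪N, u⟫ = 0 := H.inner_uu hq
  have huu : ⟪u, u⟫ ≠ 0 := fun h => hu0 (inner_self_eq_zero.mp h)
  have hreg := H.reg _ (H.mem q hq)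
  -- a vector orthogonal to `N` and `u`
  obtain ⟨δ, hδ0, hδN, hδu⟩ : ∃ δ : Vn n, δ ≠ 0 ∧ ⟪N, δ⟫ = 0 ∧ ⟪u, δ⟫ = 0 := by
    have hker : LinearMap.ker ((innerSL ℝ N : Vn n →ₗ[ℝ] ℝ).prod (innerSL ℝ u : Vn n →ₗ[ℝ] ℝ)) ≠ ⊥ :=
      LinearMap.ker_ne_bot_of_finrank_lt (by simp; omega)
    obtain ⟨δ, hδ, hδ0⟩ := Submodule.exists_mem_ne_zero_of_ne_bot hker
    have h4 : ((innerSL ℝ N : Vn n →ₗ[ℝ] ℝ) δ, (innerSL ℝ u : Vn n →ₗ[ℝ] ℝ) δ) = (0 : ℝ × ℝ) := hδ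
    exact ⟨δ, hδ0, congrArg Prod.fst h4, congrArg Prod.snd h4⟩
  obtain ⟨c₁, hc₁⟩ := h1 δ hδN
  obtain ⟨c₂, hc₂⟩ := h2 δ hδN
  have hμρ : μ = ρ := by
    have h5 : μ • δ + c₁ • u = ρ • δ + c₂ • u := hc₁.symm.trans hc₂
    have h6 := congrArg (fun z : Vn n => ⟪z, δ⟫) h5
    simp only [inner_add_left, real_inner_smul_left, hδu, mul_zero, add_zero] at h6
    exact mul_right_cancel₀ (fun h => hδ0 (inner_self_eq_zero.mp h)) h6
  intro ξ hξ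
  obtain ⟨c, hc⟩ := h1 ξ hξ
  have hsymm := shape_symm H.openW H.smoothf H.reg (H.mem q hq) ((inner_unit_iff hreg).1 hξ)
    ((inner_unit_iff hreg).1 hNu)
  change ⟪fderiv ℝ (unitNormal f) (ptA ℓ s q) ξ, u⟫ = ⟪fderiv ℝ (unitNormal f) (ptA ℓ s q) u, ξ⟫
    at hsymm
  rw [hc, h3, hμρ, inner_add_left, real_inner_smul_left, real_inner_smul_left,
    real_inner_smul_left, real_inner_comm u ξ] at hsymm
  have hc0 : c = 0 := by
    have h7 : c * ⟪u, u⟫ = 0 := by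
      rw [real_inner_comm] at hsymm
      linarith
    rcases mul_eq_zero.mp h7 with h | h
    · exact h
    · exact absurd h huu
  rw [hc, hc0, zero_smul, add_zero, hμρ]

/-- **Pair lemma.** -/
theorem pair_null (hn : 3 ≤ n) (H : Hit V ℓ s W f) (H' : Hit V ℓ t W' g) :
    volume {q ∈ V | s q ≠ t q ∧
      (∃ a b : ℝ, nuA g ℓ t q = a • nuA f ℓ s q + b • (ℓ q).2) ∧
      (∀ c : ℝ, nuA g ℓ t q ≠ c • (ℓ q).2) ∧
      ¬ ∃ κ : ℝ, ∀ ξ, ⟪∇ f (ptA ℓ s q), ξ⟫ = 0 →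
        fderiv ℝ (unitNormal f) (ptA ℓ s q) ξ = κ • ξ} = 0 := by
  have hV' : IsOpen {q ∈ V | uu f ℓ s q ≠ 0} := by
    have h1 := H.smooth_uu.continuousOn.isOpen_inter_preimage H.isOpen isOpen_compl_singleton
      (t := {(0 : Vn n)}ᶜ)
    exact h1
  have hsub : {q ∈ V | uu f ℓ s q ≠ 0} ⊆ V := fun q hq => hq.1
  have H1 := H.mono hV' hsub
  have H1' := H'.mono hV' hsub
  have hu : ∀ q ∈ {q ∈ V | uu f ℓ s q ≠ 0}, uu f ℓ s q ≠ 0 := fun q hq => hq.2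
  refine measure_mono_null ?_ (measure_union_null (H.normal_null (by omega))
    (measure_union_null (ae_fderiv_zero hV' (smooth_rr H1 H1' hu))
      (ae_fderiv_zero hV' (smooth_gg H1 hu))))
  rintro q ⟨hq, hst, ⟨a, b, hab⟩, hM, hns⟩
  by_cases hu0 : uu f ℓ s q = 0
  · exact Or.inl ⟨hq, hu0⟩
  right
  have hqV : q ∈ {q ∈ V | uu f ℓ s q ≠ 0} := ⟨hq, hu0⟩
  set N := nuA f ℓ s q with hN
  set M := nuA g ℓ t q with hMd
  set e := (ℓ q).2 with he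
  set u := uu f ℓ s q with hud
  have hNN : ⟪N, N⟫ = 1 := H.inner_nu_nu hq
  have hNu : ⟪N, u⟫ = 0 := H.inner_uu hq
  have hue : u = e - ⟪e, N⟫ • N := rfl
  have hee : e = u + ⟪e, N⟫ • N := by rw [hue]; abel
  have hun : ‖u‖ ^ 2 ≠ 0 := pow_ne_zero 2 (norm_ne_zero_iff.mpr hu0)
  -- the defect vanishes
  have hr : rr f g ℓ s t q = 0 := by
    change M - ⟪M, N⟫ • N - (⟪M, u⟫ * (‖u‖ ^ 2)⁻¹) • u = 0
    have h1 : M = (a + b * ⟪e, N⟫) • N + b • u := by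
      rw [hab]
      conv_lhs => rw [hee]
      rw [smul_add, smul_smul, add_smul]
      abel
    have huN : ⟪u, N⟫ = 0 := by rw [real_inner_comm]; exact hNu
    have h2 : ⟪M, N⟫ = a + b * ⟪e, N⟫ := by
      rw [h1, inner_add_left, real_inner_smul_left, real_inner_smul_left, hNN, huN, mul_zero,
        mul_one, add_zero]
    have h3 : ⟪M, u⟫ = b * ‖u‖ ^ 2 := by
      rw [h1, inner_add_left, real_inner_smul_left, real_inner_smul_left, hNu, mul_zero, zero_add,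
        real_inner_self_eq_norm_sq]
    rw [h2, h3, mul_assoc, mul_inv_cancel₀ hun, mul_one]
    nth_rewrite 1 [h1]
    abel
  by_cases hD : fderiv ℝ (rr f g ℓ s t) q = 0
  swap
  · exact Or.inl ⟨hqV, hr, hD⟩
  right
  obtain ⟨μ, hμ⟩ := first_order H1 H1' hu hqV hst hr hD hM
  -- `u` is an eigenvector
  obtain ⟨c, hc⟩ := hμ u hNu
  have hsu : su f ℓ s q = (μ + c) • u := by
    rw [add_smul]
    exact hc
  have hρ : ⟪su f ℓ s q, u⟫ * (‖u‖ ^ 2)⁻¹ = μ + c := by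
    rw [hsu, real_inner_smul_left, real_inner_self_eq_norm_sq, mul_assoc, mul_inv_cancel₀ hun,
      mul_one]
  have hg0 : gg f ℓ s q = 0 := by
    change su f ℓ s q - (⟪su f ℓ s q, u⟫ * (‖u‖ ^ 2)⁻¹) • u = 0
    rw [hρ, hsu, sub_self]
  refine ⟨hqV, hg0, fun hD2 => hns ⟨μ + c, ?_⟩⟩
  have h2 : ∀ δ : Vn n, ⟪nuA f ℓ s q, δ⟫ = 0 → ∃ c' : ℝ,
      fderiv ℝ (unitNormal f) (ptA ℓ s q) δ = (μ + c) • δ + c' • uu f ℓ s q := by
    intro δ hδ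
    obtain ⟨c', hc'⟩ := second_order H1 hu hqV hD2 hδ
    refine ⟨c', ?_⟩
    rw [hc', ← hρ]
  have h3 := scalar_of_orders hn H hq hu0 hμ h2 hsu
  intro ξ hξ
  exact h3 ξ ((inner_unit_iff (H.reg _ (H.mem q hq))).2 hξ)

end InvC
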