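import Pool.Agent.Lib_helper86.InvC.Normal
import Pool.Agent.Lib_helper86.InvC.NullPre
import Pool.Agent.Lib_helper32.InvC.Local
import Pool.Agent.Lib_helper94.InvC_Tangent

/-!
PART T of Theorem C: from words of mirror data to all paths.
-/

set_option autoImplicit false

namespace InvC

open Set Filter Topology MeasureTheory Asymptotics
open scoped RealInnerProductSpace ContDiff Gradient

variable {n : ℕ}

/-- transversality can be tested with the unit normal -/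
lemma normal_inner {S W : Set (Vn n)} {f : Vn n → ℝ} (h : LocalEq S W f) {a m : Vn n} (ha : a ∈ W)
    (hm : IsNormal S a m) (v : Vn n) : ⟪m, v⟫ = 0 ↔ ⟪∇ f a, v⟫ = 0 := by
  obtain ⟨c, hc, hmc⟩ := normal_eq h ha hm
  have h0 : ‖∇ f a‖ ≠ 0 := norm_ne_zero_iff.mpr (h.regular a ha)
  have hc0 : c ≠ 0 := by rintro rfl; norm_num at hc
  rw [hmc, real_inner_smul_left]
  constructor
  · intro h1
    rcases mul_eq_zero.mp h1 with h2 | h2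
    · exact absurd h2 (mul_ne_zero hc0 (inv_ne_zero h0))
    · exact h2
  · intro h1
    rw [h1, mul_zero]

/-- the empty mirror datum -/
noncomputable def noDatum (n : ℕ) : Datum n where
  f := fun _ => 0
  V := ∅
  W := ∅
  isOpen_V := isOpen_empty
  convex_V := convex_empty
  isOpen_W := isOpen_empty
  smooth := fun _ h => absurd h (notMem_empty _)
  trans := fun _ h => absurd h (notMem_empty _)

/-- a word of data, as a sequence -/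
noncomputable def seqOf {j : ℕ} (w : Fin j → Datum n) (i : ℕ) : Datum n :=
  if h : i < j then w ⟨i, h⟩ else noDatum n

lemma seqOf_lt {j : ℕ} (w : Fin j → Datum n) {i : ℕ} (h : i < j) : seqOf w i = w ⟨i, h⟩ := by
  simp [seqOf, h]

/-- the paths through a word of mirror data which come back: null -/
lemma word_closed_null (hn : 2 ≤ n) (S : Set (Vn n)) {k : ℕ} (hk : 1 ≤ k) (D : ℕ → Datum n)
    (hS : ∀ i < k, LocalEq S (D i).V (D i).f) :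
    volume {q : Qn n | q.2 ≠ 0 ∧ ∃ (T : ℕ → ℝ) (ℓ : ℕ → Qn n), ℓ 0 = q ∧
      (∀ i < k, pos (T i) (ℓ i) ∈ (D i).V ∧ (ℓ i).2 ∈ (D i).W ∧
        Bounce S (T i) (ℓ i) (ℓ (i + 1)) ∧ Umbilic S (pos (T i) (ℓ i))) ∧
      (∀ i, i + 1 < k → T i < T (i + 1)) ∧ (ℓ k).2 = q.2 ∧
      ∃ s : ℝ, (ℓ k).1 = q.1 + s • q.2} = 0 := by
  obtain ⟨V, L, τ, hB, hu⟩ := word_branch S k D hS
  refine measure_mono_null ?_ (local_null hn hk hB)
  rintro q ⟨hq0, T, ℓ, rfl, h1, h2, h3, s, h4⟩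
  obtain ⟨g1, g2, g3⟩ := hu T ℓ fun i hi => ⟨(h1 i hi).1, (h1 i hi).2.1,
    bounce_zero (hS i hi) (h1 i hi).1 (h1 i hi).2.2.1,
    bounce_step (hS i hi) (h1 i hi).1 (h1 i hi).2.2.1⟩
  refine ⟨g1, hq0, fun i hi => ?_, fun i hi => ?_, ?_, s, ?_⟩
  · rw [← g2 i hi, ← g3 i hi.le]
    exact (h1 i hi).2.2.2
  · rw [← g2 i (by omega), ← g2 (i + 1) hi]
    exact h2 i hi
  · rw [← g3 k le_rfl]; exact h3
  · rw [← g3 k le_rfl]; exact h4

/-- the paths through a word of mirror data which afterwards touch the hypersurface: null -/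
lemma word_tangent_null (hn : 2 ≤ n) (S : Set (Vn n)) {j : ℕ} (D : ℕ → Datum n)
    (hS : ∀ i < j, LocalEq S (D i).V (D i).f) {W : Set (Vn n)} {f : Vn n → ℝ}
    (hf : LocalEq S W f) :
    volume {q : Qn n | ∃ (T : ℕ → ℝ) (ℓ : ℕ → Qn n), ℓ 0 = q ∧
      (∀ i < j, pos (T i) (ℓ i) ∈ (D i).V ∧ (ℓ i).2 ∈ (D i).W ∧
        Bounce S (T i) (ℓ i) (ℓ (i + 1))) ∧
      pos (T j) (ℓ j) ∈ W ∧ f (pos (T j) (ℓ j)) = 0 ∧ ⟪∇ f (pos (T j) (ℓ j)), (ℓ j).2⟫ = 0} = 0 := by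
  obtain ⟨V, L, τ, hB, hu⟩ := word_branch S j D hS
  refine measure_mono_null ?_ (null_preimage hB.isOpen (hB.smoothL j le_rfl)
    (fun q hq => hB.surj le_rfl hq) (tangent_null hf))
  rintro q ⟨T, ℓ, rfl, h1, h2, h3, h4⟩
  obtain ⟨g1, g2, g3⟩ := hu T ℓ fun i hi => ⟨(h1 i hi).1, (h1 i hi).2.1,
    bounce_zero (hS i hi) (h1 i hi).1 (h1 i hi).2.2,
    bounce_step (hS i hi) (h1 i hi).1 (h1 i hi).2.2⟩
  refine ⟨g1, T j, ?_⟩
  rw [← g3 j le_rfl]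
  exact ⟨h2, h3, h4⟩

/-- PART T -/
theorem paths_null (hn : 2 ≤ n) (S : Set (Vn n)) {k : ℕ} (hk : 1 ≤ k) :
    volume {q : Qn n | q.2 ≠ 0 ∧ ∃ (T : ℕ → ℝ) (ℓ : ℕ → Qn n), ℓ 0 = q ∧
      (∀ i < k, Bounce S (T i) (ℓ i) (ℓ (i + 1)) ∧ Umbilic S (pos (T i) (ℓ i))) ∧
      (∀ i, i + 1 < k → T i < T (i + 1)) ∧ (ℓ k).2 = q.2 ∧
      ∃ s : ℝ, (ℓ k).1 = q.1 + s • q.2} = 0 := by
  classical
  obtain ⟨𝓓, hDc, hDe, hD⟩ := exists_data S
  obtain ⟨𝓔, hEc, hEe, hE⟩ := exists_eqs S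
  have : Countable 𝓓 := hDc.to_subtype
  have : Countable 𝓔 := hEc.to_subtype
  have hsub : {q : Qn n | q.2 ≠ 0 ∧ ∃ (T : ℕ → ℝ) (ℓ : ℕ → Qn n), ℓ 0 = q ∧
      (∀ i < k, Bounce S (T i) (ℓ i) (ℓ (i + 1)) ∧ Umbilic S (pos (T i) (ℓ i))) ∧
      (∀ i, i + 1 < k → T i < T (i + 1)) ∧ (ℓ k).2 = q.2 ∧
      ∃ s : ℝ, (ℓ k).1 = q.1 + s • q.2} ⊆
      (⋃ w : Fin k → 𝓓, {q : Qn n | q.2 ≠ 0 ∧ ∃ (T : ℕ → ℝ) (ℓ : ℕ → Qn n), ℓ 0 = q ∧
        (∀ i < k, pos (T i) (ℓ i) ∈ (seqOf (fun i => (w i : Datum n)) i).V ∧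
          (ℓ i).2 ∈ (seqOf (fun i => (w i : Datum n)) i).W ∧
          Bounce S (T i) (ℓ i) (ℓ (i + 1)) ∧ Umbilic S (pos (T i) (ℓ i))) ∧
        (∀ i, i + 1 < k → T i < T (i + 1)) ∧ (ℓ k).2 = q.2 ∧
        ∃ s : ℝ, (ℓ k).1 = q.1 + s • q.2}) ∪
      ⋃ (j : ℕ), ⋃ (w : Fin j → 𝓓), ⋃ (E : 𝓔), {q : Qn n | ∃ (T : ℕ → ℝ) (ℓ : ℕ → Qn n), ℓ 0 = q ∧
        (∀ i < j, pos (T i) (ℓ i) ∈ (seqOf (fun i => (w i : Datum n)) i).V ∧
          (ℓ i).2 ∈ (seqOf (fun i => (w i : Datum n)) i).W ∧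
          Bounce S (T i) (ℓ i) (ℓ (i + 1))) ∧
        pos (T j) (ℓ j) ∈ (E : Set (Vn n) × (Vn n → ℝ)).1 ∧
        (E : Set (Vn n) × (Vn n → ℝ)).2 (pos (T j) (ℓ j)) = 0 ∧
        ⟪∇ (E : Set (Vn n) × (Vn n → ℝ)).2 (pos (T j) (ℓ j)), (ℓ j).2⟫ = 0} := by
    rintro q ⟨hq0, T, ℓ, hℓ0, h1, h2, h3, s, h4⟩
    have hm : ∀ i, ∃ m, i < k → IsNormal S (pos (T i) (ℓ i)) m := by
      intro i
      by_cases hi : i < k
      · obtain ⟨m, hm, -⟩ := (h1 i hi).1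
        exact ⟨m, fun _ => hm⟩
      · exact ⟨0, fun h => absurd h hi⟩
    choose m hm using hm
    -- mirror data at transversal bounces
    have hdat : ∀ i < k, ⟪m i, (ℓ i).2⟫ ≠ 0 →
        ∃ D ∈ 𝓓, pos (T i) (ℓ i) ∈ D.V ∧ (ℓ i).2 ∈ D.W := by
      intro i hi hne
      obtain ⟨W, f, haW, hf⟩ := (h1 i hi).2.2.1
      exact hD W f _ _ hf haW fun h => hne ((normal_inner hf haW (hm i hi) _).2 h)
    by_cases hall : ∀ i < k, ⟪m i, (ℓ i).2⟫ ≠ 0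
    · left
      have hw : ∀ i : Fin k, ∃ D : 𝓓, pos (T i) (ℓ i) ∈ (D : Datum n).V ∧
          (ℓ i).2 ∈ (D : Datum n).W := by
        intro i
        obtain ⟨D, hD1, hD2⟩ := hdat i i.2 (hall i i.2)
        exact ⟨⟨D, hD1⟩, hD2⟩
      choose w hw using hw
      simp only [mem_iUnion]
      refine ⟨w, hq0, T, ℓ, hℓ0, fun i hi => ?_, h2, h3, s, h4⟩
      rw [seqOf_lt _ hi]
      exact ⟨(hw ⟨i, hi⟩).1, (hw ⟨i, hi⟩).2, h1 i hi⟩
    · right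
      push Not at hall
      have hex : ∃ j, j < k ∧ ⟪m j, (ℓ j).2⟫ = 0 := hall
      set j := Nat.find hex with hj
      obtain ⟨hjk, hj0⟩ := Nat.find_spec hex
      rw [← hj] at hjk hj0
      have hmin : ∀ i < j, ⟪m i, (ℓ i).2⟫ ≠ 0 := fun i hi h0 =>
        Nat.find_min hex hi ⟨hi.trans hjk, h0⟩
      have hw : ∀ i : Fin j, ∃ D : 𝓓, pos (T i) (ℓ i) ∈ (D : Datum n).V ∧
          (ℓ i).2 ∈ (D : Datum n).W := by
        intro i
        obtain ⟨D, hD1, hD2⟩ := hdat i (i.2.trans hjk) (hmin i i.2)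
        exact ⟨⟨D, hD1⟩, hD2⟩
      choose w hw using hw
      obtain ⟨W, f, haW, hf⟩ := (h1 j hjk).2.2.1
      obtain ⟨E, hEE, haE⟩ := hE W f _ hf haW
      simp only [mem_iUnion]
      refine ⟨j, w, ⟨E, hEE⟩, T, ℓ, hℓ0, fun i hi => ?_, haE, ?_, ?_⟩
      · rw [seqOf_lt _ hi]
        exact ⟨(hw ⟨i, hi⟩).1, (hw ⟨i, hi⟩).2, (h1 i (hi.trans hjk)).1⟩
      · exact bounce_zero (hEe E hEE) haE (h1 j hjk).1
      · exact (normal_inner (hEe E hEE) haE (hm j hjk) _).1 hj0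
  refine measure_mono_null hsub (measure_union_null ?_ ?_)
  · rw [measure_iUnion_null_iff]
    intro w
    refine word_closed_null hn S hk _ fun i hi => ?_
    rw [seqOf_lt _ hi]
    exact hDe _ (w _).2
  · rw [measure_iUnion_null_iff]
    intro j
    rw [measure_iUnion_null_iff]
    intro w
    rw [measure_iUnion_null_iff]
    intro E
    refine word_tangent_null hn S _ (fun i hi => ?_) (hEe _ E.2)
    rw [seqOf_lt _ hi]
    exact hDe _ (w _).2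

end InvC
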