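import Pool.Agent.Lib_helper86.InvC.PairMain

/-!
Branches whose consecutive planes of incidence coincide.
-/

set_option autoImplicit false

namespace InvC

open Set Filter Topology MeasureTheory Asymptotics
open scoped RealInnerProductSpace ContDiff Gradient

variable {n : ℕ} {S : Set (Vn n)} {V : Set (Qn n)} {k : ℕ} {W : ℕ → Set (Vn n)}
    {f : ℕ → Vn n → ℝ} {L : ℕ → Qn n → Qn n} {τ : ℕ → Qn n → ℝ}

lemma pos_step {g : Vn n → ℝ} {t : ℝ} {ℓ : Qn n} : pos t (step g t ℓ) = pos t ℓ := by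
  simp only [pos, step, stepN]
  abel

lemma Branch.pos_next (h : Branch S V k W f L τ) {i : ℕ} (hi : i < k) {q : Qn n} (hq : q ∈ V) :
    pos (τ i q) (L (i + 1) q) = pos (τ i q) (L i q) := by
  rw [h.next i hi q hq, pos_step]

lemma Branch.grad_ne (h : Branch S V k W f L τ) {i : ℕ} (hi : i < k) {q : Qn n} (hq : q ∈ V) :
    ∇ (f i) (pos (τ i q) (L i q)) ≠ 0 :=
  (h.eqn i hi).regular _ (h.mem i hi q hq)

/-- the ray after a reflection, hitting the mirror at this reflection -/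
lemma Branch.hit_before (h : Branch S V k W f L τ) {i : ℕ} (hi : i < k) :
    Hit V (L (i + 1)) (τ i) (W i) (f i) where
  isOpen := h.isOpen
  smoothl := h.smoothL (i + 1) hi
  smooths := h.smoothT i hi
  surj := fun q hq => h.surj (i := i + 1) hi hq
  openW := (h.eqn i hi).isOpen
  smoothf := (h.eqn i hi).smooth
  reg := (h.eqn i hi).regular
  mem := fun q hq => by rw [h.pos_next hi hq]; exact h.mem i hi q hq
  zero := fun q hq => by rw [h.pos_next hi hq]; exact h.hit i hi q hq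
  trans := fun q hq => by
    rw [h.pos_next hi hq, h.next i hi q hq]
    simp only [step, stepN]
    rw [inner_rho (h.grad_ne hi hq)]
    exact neg_ne_zero.mpr (h.trans i hi q hq)

/-- the ray before a reflection -/
lemma Branch.hit_after (h : Branch S V k W f L τ) {i : ℕ} (hi : i < k) :
    Hit V (L i) (τ i) (W i) (f i) where
  isOpen := h.isOpen
  smoothl := h.smoothL i hi.le
  smooths := h.smoothT i hi
  surj := fun q hq => h.surj (i := i) hi.le hq
  openW := (h.eqn i hi).isOpen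
  smoothf := (h.eqn i hi).smooth
  reg := (h.eqn i hi).regular
  mem := fun q hq => h.mem i hi q hq
  zero := fun q hq => h.hit i hi q hq
  trans := fun q hq => h.trans i hi q hq

/-- the reflected direction -/
lemma Branch.dir_next (h : Branch S V k W f L τ) {i : ℕ} (hi : i < k) {q : Qn n} (hq : q ∈ V) :
    ∃ α : ℝ, α ≠ 0 ∧ (L i q).2 = (L (i + 1) q).2 + α • unitNormal (f i) (pos (τ i q) (L i q)) := by
  have h0 := h.grad_ne hi hq
  have h1 : ‖∇ (f i) (pos (τ i q) (L i q))‖ ≠ 0 := norm_ne_zero_iff.mpr h0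
  have h2 := h.trans i hi q hq
  refine ⟨2 * ⟪(L i q).2, ∇ (f i) (pos (τ i q) (L i q))⟫ /
    ‖∇ (f i) (pos (τ i q) (L i q))‖, ?_, ?_⟩
  · rw [real_inner_comm]
    positivity
  · rw [h.next i hi q hq]
    simp only [step, stepN, rho, unitNormal, smul_smul]
    have h3 : 2 * ⟪(L i q).2, ∇ (f i) (pos (τ i q) (L i q))⟫ /
      ‖∇ (f i) (pos (τ i q) (L i q))‖ * ‖∇ (f i) (pos (τ i q) (L i q))‖⁻¹ =
      2 * ⟪(L i q).2, ∇ (f i) (pos (τ i q) (L i q))⟫ / ‖∇ (f i) (pos (τ i q) (L i q))‖ ^ 2 := by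
      field_simp
    rw [h3]
    abel

/-- normal incidence -/
lemma uu_eq_zero {ℓ : Qn n → Qn n} {s : Qn n → ℝ} {g : Vn n → ℝ} {q : Qn n}
    (h1 : ‖nuA g ℓ s q‖ = 1) {c : ℝ} (h : (ℓ q).2 = c • nuA g ℓ s q) : uu g ℓ s q = 0 := by
  simp only [uu]
  have h2 : ⟪nuA g ℓ s q, nuA g ℓ s q⟫ = 1 := by rw [real_inner_self_eq_norm_sq, h1, one_pow]
  rw [h, real_inner_smul_left, h2, mul_one, sub_self]

/-- linear algebra: three dependent consecutive directions -/
lemma dep_directions {e₀ e₁ e₂ N M : Vn n} {α β : ℝ} (hα : α ≠ 0) (hβ : β ≠ 0) (hN : N ≠ 0)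
    (hM : M ≠ 0) (h1 : e₀ = e₁ + α • N) (h2 : e₁ = e₂ + β • M)
    (hdep : ¬ LinearIndependent ℝ ![e₀, e₁, e₂]) :
    (∃ c : ℝ, e₁ = c • N) ∨ (∃ c : ℝ, e₁ = c • M) ∨
      ((∃ a b : ℝ, M = a • N + b • e₁) ∧ ∃ a b : ℝ, N = a • M + b • e₁) := by
  rw [Fintype.not_linearIndependent_iff] at hdep
  obtain ⟨g, hg, i, hi⟩ := hdep
  simp only [Fin.sum_univ_three, Matrix.cons_val_zero, Matrix.cons_val_one,
    Matrix.cons_val_two, Matrix.tail_cons, Matrix.head_cons] at hg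
  have he2 : e₂ = e₁ - β • M := by rw [h2]; abel
  have key : (g 0 * α) • N + (g 0 + g 1 + g 2) • e₁ - (g 2 * β) • M = 0 := by
    rw [← hg, h1, he2]
    module
  by_cases h0 : g 0 = 0
  · by_cases h2' : g 2 = 0
    · have h1' : g 1 ≠ 0 := by
        fin_cases i
        · exact absurd h0 hi
        · exact hi
        · exact absurd h2' hi
      left
      refine ⟨0, ?_⟩
      rw [h0, h2'] at key
      simp only [zero_mul, zero_smul, zero_add, add_zero, sub_zero] at key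
      rw [zero_smul]
      exact (smul_eq_zero.mp key).resolve_left h1'
    · right; left
      rw [h0] at key
      simp only [zero_mul, zero_smul, zero_add] at key
      have hγ : g 1 + g 2 ≠ 0 := by
        intro hγ
        rw [hγ, zero_smul, zero_sub, neg_eq_zero] at key
        exact hM ((smul_eq_zero.mp key).resolve_left (mul_ne_zero h2' hβ))
      refine ⟨(g 1 + g 2)⁻¹ * (g 2 * β), ?_⟩
      rw [mul_smul, ← sub_eq_zero.mp key, smul_smul, inv_mul_cancel₀ hγ, one_smul]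
  · have hg0 : g 0 * α ≠ 0 := mul_ne_zero h0 hα
    by_cases h2' : g 2 = 0
    · left
      rw [h2'] at key
      simp only [zero_mul, zero_smul, add_zero, sub_zero] at key
      have hγ : g 0 + g 1 ≠ 0 := by
        intro hγ
        rw [hγ, zero_smul, add_zero] at key
        exact hN ((smul_eq_zero.mp key).resolve_left hg0)
      refine ⟨(g 0 + g 1)⁻¹ * -(g 0 * α), ?_⟩
      rw [mul_smul, neg_smul, ← eq_neg_of_add_eq_zero_right key, smul_smul, inv_mul_cancel₀ hγ,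
        one_smul]
    · right; right
      have hg2 : g 2 * β ≠ 0 := mul_ne_zero h2' hβ
      generalize g 0 * α = A at key hg0
      generalize g 2 * β = B at key hg2
      generalize g 0 + g 1 + g 2 = C at key
      constructor
      · refine ⟨B⁻¹ * A, B⁻¹ * C, ?_⟩
        rw [mul_smul, mul_smul, ← smul_add, sub_eq_zero.mp key, smul_smul, inv_mul_cancel₀ hg2,
          one_smul]
      · refine ⟨A⁻¹ * B, -(A⁻¹ * C), ?_⟩
        have h5 : A • N = B • M - C • e₁ := by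
          rw [← sub_eq_zero]
          rw [← key]
          abel
        rw [neg_smul, mul_smul, mul_smul, ← sub_eq_add_neg, ← smul_sub, ← h5, smul_smul,
          inv_mul_cancel₀ hg0, one_smul]

/-- **Branch form.** The closing rays all of whose reflection points have a scalar shape operator or
share their plane of incidence with a neighbour: null. -/
theorem coplanar_null (hn : 3 ≤ n) (hk : 1 ≤ k) (h : Branch S V k W f L τ) :
    volume {q ∈ V | q.2 ≠ 0 ∧ (∀ i < k,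
      (∃ κ : ℝ, ∀ ξ, ⟪∇ (f i) (pos (τ i q) (L i q)), ξ⟫ = 0 →
        fderiv ℝ (unitNormal (f i)) (pos (τ i q) (L i q)) ξ = κ • ξ) ∨
      ∃ j, j + 1 < k ∧ (i = j ∨ i = j + 1) ∧
        ¬ LinearIndependent ℝ ![(L j q).2, (L (j + 1) q).2, (L (j + 2) q).2]) ∧
      (∀ i, i + 1 < k → τ i q < τ (i + 1) q) ∧ (L k q).2 = q.2 ∧
      ∃ s : ℝ, (L k q).1 = q.1 + s • q.2} = 0 := by
  -- the exceptional sets
  set N1 : ℕ → Set (Qn n) := fun j => {q ∈ V | uu (f j) (L (j + 1)) (τ j) q = 0} with hN1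
  set N2 : ℕ → Set (Qn n) := fun j =>
    {q ∈ V | uu (f (j + 1)) (L (j + 1)) (τ (j + 1)) q = 0} with hN2
  set P1 : ℕ → Set (Qn n) := fun j => {q ∈ V | τ j q ≠ τ (j + 1) q ∧
      (∃ a b : ℝ, nuA (f (j + 1)) (L (j + 1)) (τ (j + 1)) q =
        a • nuA (f j) (L (j + 1)) (τ j) q + b • (L (j + 1) q).2) ∧
      (∀ c : ℝ, nuA (f (j + 1)) (L (j + 1)) (τ (j + 1)) q ≠ c • (L (j + 1) q).2) ∧
      ¬ ∃ κ : ℝ, ∀ ξ, ⟪∇ (f j) (ptA (L (j + 1)) (τ j) q), ξ⟫ = 0 →
        fderiv ℝ (unitNormal (f j)) (ptA (L (j + 1)) (τ j) q) ξ = κ • ξ} with hP1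
  set P2 : ℕ → Set (Qn n) := fun j => {q ∈ V | τ (j + 1) q ≠ τ j q ∧
      (∃ a b : ℝ, nuA (f j) (L (j + 1)) (τ j) q =
        a • nuA (f (j + 1)) (L (j + 1)) (τ (j + 1)) q + b • (L (j + 1) q).2) ∧
      (∀ c : ℝ, nuA (f j) (L (j + 1)) (τ j) q ≠ c • (L (j + 1) q).2) ∧
      ¬ ∃ κ : ℝ, ∀ ξ, ⟪∇ (f (j + 1)) (ptA (L (j + 1)) (τ (j + 1)) q), ξ⟫ = 0 →
        fderiv ℝ (unitNormal (f (j + 1))) (ptA (L (j + 1)) (τ (j + 1)) q) ξ = κ • ξ} with hP2
  have hnull : volume ((⋃ j ∈ {j : ℕ | j + 1 < k}, ((N1 j ∪ N2 j) ∪ (P1 j ∪ P2 j))) ∪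
      {q ∈ V | q.2 ≠ 0 ∧ (∀ i < k, ∃ κ : ℝ, ∀ ξ, ⟪∇ (f i) (pos (τ i q) (L i q)), ξ⟫ = 0 →
        fderiv ℝ (unitNormal (f i)) (pos (τ i q) (L i q)) ξ = κ • ξ) ∧
      (∀ i, i + 1 < k → τ i q < τ (i + 1) q) ∧ (L k q).2 = q.2 ∧
      ∃ s : ℝ, (L k q).1 = q.1 + s • q.2}) = 0 := by
    refine measure_union_null ?_ (local_null_shape hn hk h)
    rw [measure_biUnion_null_iff (Set.to_countable _)]
    intro j hj
    have hj1 : j < k := Nat.lt_of_succ_lt hj
    have H1 := h.hit_before hj1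
    have H2 := h.hit_after (i := j + 1) hj
    exact measure_union_null (measure_union_null (H1.normal_null (by omega))
      (H2.normal_null (by omega))) (measure_union_null (pair_null hn H1 H2)
      (pair_null hn H2 H1))
  refine measure_mono_null ?_ hnull
  rintro q ⟨hq, hq2, hu, ht, h1, h2⟩
  by_cases hex : q ∈ ⋃ j ∈ {j : ℕ | j + 1 < k}, ((N1 j ∪ N2 j) ∪ (P1 j ∪ P2 j))
  · exact Or.inl hex
  right
  simp only [mem_iUnion, not_exists, mem_union, not_or] at hex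
  refine ⟨hq, hq2, fun i hi => ?_, ht, h1, h2⟩
  rcases hu i hi with h3 | ⟨j, hj, hij, hdep⟩
  · exact h3
  have hj1 : j < k := Nat.lt_of_succ_lt hj
  obtain ⟨⟨hn1, hn2⟩, hp1, hp2⟩ := hex j hj
  have H1 := h.hit_before hj1
  have H2 := h.hit_after (i := j + 1) hj
  obtain ⟨α, hα, hα'⟩ := h.dir_next hj1 hq
  obtain ⟨β, hβ, hβ'⟩ := h.dir_next (i := j + 1) hj hq
  have hpn := h.pos_next hj1 hq
  have hnA : nuA (f j) (L (j + 1)) (τ j) q = unitNormal (f j) (pos (τ j q) (L j q)) := by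
    change unitNormal (f j) (pos (τ j q) (L (j + 1) q)) = _
    rw [hpn]
  rw [← hnA] at hα'
  have hN0 : nuA (f j) (L (j + 1)) (τ j) q ≠ 0 := by
    intro h0
    have := H1.norm_nu hq
    rw [h0, norm_zero] at this
    exact zero_ne_one this
  have hM0 : nuA (f (j + 1)) (L (j + 1)) (τ (j + 1)) q ≠ 0 := by
    intro h0
    have := H2.norm_nu hq
    rw [h0, norm_zero] at this
    exact zero_ne_one this
  have hlt : τ j q < τ (j + 1) q := ht j hj
  rcases dep_directions hα hβ hN0 hM0 hα' hβ' hdep with ⟨c, hc⟩ | ⟨c, hc⟩ | ⟨h4, h5⟩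
  · exact absurd ⟨hq, uu_eq_zero (H1.norm_nu hq) hc⟩ hn1
  · exact absurd ⟨hq, uu_eq_zero (H2.norm_nu hq) hc⟩ hn2
  have hL0 : (L (j + 1) q).2 ≠ 0 := by
    intro h0
    apply h.trans (j + 1) hj q hq
    rw [h0, inner_zero_right]
  rcases hij with rfl | rfl
  · by_contra hns
    refine hp1 ⟨hq, hlt.ne, h4, fun c hc => ?_, ?_⟩
    · have hc0 : c ≠ 0 := by
        rintro rfl
        rw [zero_smul] at hc
        exact hM0 hc
      refine hn2 ⟨hq, uu_eq_zero (H2.norm_nu hq) (c := c⁻¹) ?_⟩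
      rw [hc, smul_smul, inv_mul_cancel₀ hc0, one_smul]
    · change ¬ ∃ κ : ℝ, ∀ ξ, ⟪∇ (f i) (pos (τ i q) (L (i + 1) q)), ξ⟫ = 0 →
        fderiv ℝ (unitNormal (f i)) (pos (τ i q) (L (i + 1) q)) ξ = κ • ξ
      rw [hpn]
      exact hns
  · by_contra hns
    refine hp2 ⟨hq, hlt.ne', h5, fun c hc => ?_, hns⟩
    have hc0 : c ≠ 0 := by
      rintro rfl
      rw [zero_smul] at hc
      exact hN0 hc
    refine hn1 ⟨hq, uu_eq_zero (H1.norm_nu hq) (c := c⁻¹) ?_⟩
    rw [hc, smul_smul, inv_mul_cancel₀ hc0, one_smul]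

end InvC
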