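import Pool.Agent.Lib_helper86.InvC.Paths
import Pool.Agent.Lib_helper86.InvC.Planar

/-!
From words of mirror data to all paths, for a general condition on the path.
-/

set_option autoImplicit false

namespace InvC

open Set Filter Topology MeasureTheory Asymptotics
open scoped RealInnerProductSpace ContDiff Gradient

variable {n : ℕ}

/-- the paths through a word of mirror data which come back: null -/
lemma word_closed_nullP (S : Set (Vn n)) {k : ℕ}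
    (P : (ℕ → ℝ) → (ℕ → Qn n) → Prop)
    (hP : ∀ (V : Set (Qn n)) (W : ℕ → Set (Vn n)) (f : ℕ → Vn n → ℝ) (L : ℕ → Qn n → Qn n)
      (τ : ℕ → Qn n → ℝ), Branch S V k W f L τ →
      volume {q ∈ V | q.2 ≠ 0 ∧ (∃ T ℓ, (∀ i < k, T i = τ i q) ∧ (∀ i ≤ k, ℓ i = L i q) ∧ P T ℓ) ∧
        (∀ i, i + 1 < k → τ i q < τ (i + 1) q) ∧ (L k q).2 = q.2 ∧
        ∃ s : ℝ, (L k q).1 = q.1 + s • q.2} = 0)
    (D : ℕ → Datum n) (hS : ∀ i < k, LocalEq S (D i).V (D i).f) :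
    volume {q : Qn n | q.2 ≠ 0 ∧ ∃ (T : ℕ → ℝ) (ℓ : ℕ → Qn n), ℓ 0 = q ∧
      (∀ i < k, pos (T i) (ℓ i) ∈ (D i).V ∧ (ℓ i).2 ∈ (D i).W ∧
        Bounce S (T i) (ℓ i) (ℓ (i + 1))) ∧ P T ℓ ∧
      (∀ i, i + 1 < k → T i < T (i + 1)) ∧ (ℓ k).2 = q.2 ∧
      ∃ s : ℝ, (ℓ k).1 = q.1 + s • q.2} = 0 := by
  obtain ⟨V, L, τ, hB, hu⟩ := word_branch S k D hS
  refine measure_mono_null ?_ (hP _ _ _ _ _ hB)
  rintro q ⟨hq0, T, ℓ, rfl, h1, hPT, h2, h3, s, h4⟩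
  obtain ⟨g1, g2, g3⟩ := hu T ℓ fun i hi => ⟨(h1 i hi).1, (h1 i hi).2.1,
    bounce_zero (hS i hi) (h1 i hi).1 (h1 i hi).2.2,
    bounce_step (hS i hi) (h1 i hi).1 (h1 i hi).2.2⟩
  refine ⟨g1, hq0, ⟨T, ℓ, g2, g3, hPT⟩, fun i hi => ?_, ?_, s, ?_⟩
  · rw [← g2 i (by omega), ← g2 (i + 1) hi]
    exact h2 i hi
  · rw [← g3 k le_rfl]; exact h3
  · rw [← g3 k le_rfl]; exact h4

/-- all paths with smooth reflection points -/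
theorem paths_nullP (hn : 2 ≤ n) (S : Set (Vn n)) {k : ℕ}
    (P : (ℕ → ℝ) → (ℕ → Qn n) → Prop)
    (hP : ∀ (V : Set (Qn n)) (W : ℕ → Set (Vn n)) (f : ℕ → Vn n → ℝ) (L : ℕ → Qn n → Qn n)
      (τ : ℕ → Qn n → ℝ), Branch S V k W f L τ →
      volume {q ∈ V | q.2 ≠ 0 ∧ (∃ T ℓ, (∀ i < k, T i = τ i q) ∧ (∀ i ≤ k, ℓ i = L i q) ∧ P T ℓ) ∧
        (∀ i, i + 1 < k → τ i q < τ (i + 1) q) ∧ (L k q).2 = q.2 ∧
        ∃ s : ℝ, (L k q).1 = q.1 + s • q.2} = 0) :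
    volume {q : Qn n | q.2 ≠ 0 ∧ ∃ (T : ℕ → ℝ) (ℓ : ℕ → Qn n), ℓ 0 = q ∧
      (∀ i < k, Bounce S (T i) (ℓ i) (ℓ (i + 1)) ∧
        ∃ W f, pos (T i) (ℓ i) ∈ W ∧ LocalEq S W f) ∧ P T ℓ ∧
      (∀ i, i + 1 < k → T i < T (i + 1)) ∧ (ℓ k).2 = q.2 ∧
      ∃ s : ℝ, (ℓ k).1 = q.1 + s • q.2} = 0 := by
  classical
  obtain ⟨𝓓, hDc, hDe, hD⟩ := exists_data S
  obtain ⟨𝓔, hEc, hEe, hE⟩ := exists_eqs S
  have : Countable 𝓓 := hDc.to_subtype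
  have : Countable 𝓔 := hEc.to_subtype
  have hsub : {q : Qn n | q.2 ≠ 0 ∧ ∃ (T : ℕ → ℝ) (ℓ : ℕ → Qn n), ℓ 0 = q ∧
      (∀ i < k, Bounce S (T i) (ℓ i) (ℓ (i + 1)) ∧
        ∃ W f, pos (T i) (ℓ i) ∈ W ∧ LocalEq S W f) ∧ P T ℓ ∧
      (∀ i, i + 1 < k → T i < T (i + 1)) ∧ (ℓ k).2 = q.2 ∧
      ∃ s : ℝ, (ℓ k).1 = q.1 + s • q.2} ⊆
      (⋃ w : Fin k → 𝓓, {q : Qn n | q.2 ≠ 0 ∧ ∃ (T : ℕ → ℝ) (ℓ : ℕ → Qn n), ℓ 0 = q ∧
        (∀ i < k, pos (T i) (ℓ i) ∈ (seqOf (fun i => (w i : Datum n)) i).V ∧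
          (ℓ i).2 ∈ (seqOf (fun i => (w i : Datum n)) i).W ∧
          Bounce S (T i) (ℓ i) (ℓ (i + 1))) ∧ P T ℓ ∧
        (∀ i, i + 1 < k → T i < T (i + 1)) ∧ (ℓ k).2 = q.2 ∧
        ∃ s : ℝ, (ℓ k).1 = q.1 + s • q.2}) ∪
      ⋃ (j : ℕ), ⋃ (w : Fin j → 𝓓), ⋃ (E : 𝓔), {q : Qn n | ∃ (T : ℕ → ℝ) (ℓ : ℕ → Qn n), ℓ 0 = q ∧
        (∀ i < j, pos (T i) (ℓ i) ∈ (seqOf (fun i => (w i : Datum n)) i).V ∧
          (ℓ i).2 ∈ (seqOf (fun i => (w i : Datum n)) i).W ∧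
          Bounce S (T i) (ℓ i) (ℓ (i + 1))) ∧
        pos (T j) (ℓ j) ∈ (E : Set (Vn n) × (Vn n → ℝ)).1 ∧
        (E : Set (Vn n) × (Vn n → ℝ)).2 (pos (T j) (ℓ j)) = 0 ∧
        ⟪∇ (E : Set (Vn n) × (Vn n → ℝ)).2 (pos (T j) (ℓ j)), (ℓ j).2⟫ = 0} := by
    rintro q ⟨hq0, T, ℓ, hℓ0, h1, hPT, h2, h3, s, h4⟩
    have hm : ∀ i, ∃ m, i < k → IsNormal S (pos (T i) (ℓ i)) m := by
      intro i
      by_cases hi : i < k
      · obtain ⟨m, hm, -⟩ := (h1 i hi).1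
        exact ⟨m, fun _ => hm⟩
      · exact ⟨0, fun h => absurd h hi⟩
    choose m hm using hm
    -- mirror data at transversal bounces
    have hdat : ∀ i < k, ⟪m i, (ℓ i).2⟫ ≠ 0 →
        ∃ D ∈ 𝓓, pos (T i) (ℓ i) ∈ D.V ∧ (ℓ i).2 ∈ D.W := by
      intro i hi hne
      obtain ⟨W, f, haW, hf⟩ := (h1 i hi).2
      exact hD W f _ _ hf haW fun h => hne ((normal_inner hf haW (hm i hi) _).2 h)
    by_cases hall : ∀ i < k, ⟪m i, (ℓ i).2⟫ ≠ 0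
    · left
      have hw : ∀ i : Fin k, ∃ D : 𝓓, pos (T i) (ℓ i) ∈ (D : Datum n).V ∧
          (ℓ i).2 ∈ (D : Datum n).W := by
        intro i
        obtain ⟨D, hD1, hD2⟩ := hdat i i.2 (hall i i.2)
        exact ⟨⟨D, hD1⟩, hD2⟩
      choose w hw using hw
      simp only [mem_iUnion]
      refine ⟨w, hq0, T, ℓ, hℓ0, fun i hi => ?_, hPT, h2, h3, s, h4⟩
      rw [seqOf_lt _ hi]
      exact ⟨(hw ⟨i, hi⟩).1, (hw ⟨i, hi⟩).2, (h1 i hi).1⟩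
    · right
      push Not at hall
      have hex : ∃ j, j < k ∧ ⟪m j, (ℓ j).2⟫ = 0 := hall
      set j := Nat.find hex with hj
      obtain ⟨hjk, hj0⟩ := Nat.find_spec hex
      rw [← hj] at hjk hj0
      have hmin : ∀ i < j, ⟪m i, (ℓ i).2⟫ ≠ 0 := fun i hi h0 =>
        Nat.find_min hex hi ⟨hi.trans hjk, h0⟩
      have hw : ∀ i : Fin j, ∃ D : 𝓓, pos (T i) (ℓ i) ∈ (D : Datum n).V ∧
          (ℓ i).2 ∈ (D : Datum n).W := by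
        intro i
        obtain ⟨D, hD1, hD2⟩ := hdat i (i.2.trans hjk) (hmin i i.2)
        exact ⟨⟨D, hD1⟩, hD2⟩
      choose w hw using hw
      obtain ⟨W, f, haW, hf⟩ := (h1 j hjk).2
      obtain ⟨E, hEE, haE⟩ := hE W f _ hf haW
      simp only [mem_iUnion]
      refine ⟨j, w, ⟨E, hEE⟩, T, ℓ, hℓ0, fun i hi => ?_, haE, ?_, ?_⟩
      · rw [seqOf_lt _ hi]
        exact ⟨(hw ⟨i, hi⟩).1, (hw ⟨i, hi⟩).2, (h1 i (hi.trans hjk)).1⟩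
      · exact bounce_zero (hEe E hEE) haE (h1 j hjk).1
      · exact (normal_inner (hEe E hEE) haE (hm j hjk) _).1 hj0
  refine measure_mono_null hsub (measure_union_null ?_ ?_)
  · rw [measure_iUnion_null_iff]
    intro w
    refine word_closed_nullP S P hP _ fun i hi => ?_
    rw [seqOf_lt _ hi]
    exact hDe _ (w _).2
  · rw [measure_iUnion_null_iff]
    intro j
    rw [measure_iUnion_null_iff]
    intro w
    rw [measure_iUnion_null_iff]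
    intro E
    refine word_tangent_null hn S _ (fun i hi => ?_) (hEe _ E.2)
    rw [seqOf_lt _ hi]
    exact hDe _ (w _).2

/-- the shape operator of `S` at `a` is scalar, for all local equations -/
def Umb (S : Set (Vn n)) (a : Vn n) : Prop :=
  ∀ W f, a ∈ W → LocalEq S W f →
    ∃ κ : ℝ, ∀ ξ, ⟪∇ f a, ξ⟫ = 0 → fderiv ℝ (unitNormal f) a ξ = κ • ξ

/-- **Theorem P**, in terms of paths -/
theorem paths_coplanar_null (hn : 3 ≤ n) (S : Set (Vn n)) {k : ℕ} (hk : 1 ≤ k) :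
    volume {q : Qn n | q.2 ≠ 0 ∧ ∃ (T : ℕ → ℝ) (ℓ : ℕ → Qn n), ℓ 0 = q ∧
      (∀ i < k, Bounce S (T i) (ℓ i) (ℓ (i + 1)) ∧
        ∃ W f, pos (T i) (ℓ i) ∈ W ∧ LocalEq S W f) ∧
      (k = 1 ∨ ∀ i < k, Umb S (pos (T i) (ℓ i)) ∨ ∃ j, j + 1 < k ∧ (i = j ∨ i = j + 1) ∧
        ¬ LinearIndependent ℝ ![(ℓ j).2, (ℓ (j + 1)).2, (ℓ (j + 2)).2]) ∧
      (∀ i, i + 1 < k → T i < T (i + 1)) ∧ (ℓ k).2 = q.2 ∧
      ∃ s : ℝ, (ℓ k).1 = q.1 + s • q.2} = 0 := by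
  refine paths_nullP (by omega) S (fun T ℓ => k = 1 ∨ ∀ i < k, Umb S (pos (T i) (ℓ i)) ∨
    ∃ j, j + 1 < k ∧ (i = j ∨ i = j + 1) ∧
        ¬ LinearIndependent ℝ ![(ℓ j).2, (ℓ (j + 1)).2, (ℓ (j + 2)).2]) ?_
  intro V W f L τ hB
  refine measure_mono_null ?_ (coplanar_null hn hk hB)
  rintro q ⟨hq, hq2, ⟨T, ℓ, hT, hℓ, hc⟩, ht, h1, h2⟩
  rcases hc with rfl | hc
  · -- a closing ray with one reflection is tangent
    exfalso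
    obtain ⟨α, hα, h3⟩ := hB.dir_next (i := 0) (by omega) hq
    have h4 : (L 0 q).2 = q.2 := by rw [hB.start q hq]
    rw [h4, zero_add, h1] at h3
    have h5 : α • unitNormal (f 0) (pos (τ 0 q) (L 0 q)) = 0 := by
      have h6 : q.2 + α • unitNormal (f 0) (pos (τ 0 q) (L 0 q)) = q.2 + 0 := by
        rw [← h3, add_zero]
      exact add_left_cancel h6
    have h7 := norm_unit_eq (hB.grad_ne (i := 0) (by omega) hq)
    rcases smul_eq_zero.mp h5 with h8 | h8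
    · exact hα h8
    · rw [h8, norm_zero] at h7
      exact zero_ne_one h7
  refine ⟨hq, hq2, fun i hi => ?_, ht, h1, h2⟩
  rcases hc i hi with h3 | ⟨j, hj, hij, hdep⟩
  · left
    rw [hT i hi, hℓ i hi.le] at h3
    exact h3 (W i) (f i) (hB.mem i hi q hq) (hB.eqn i hi)
  · right
    refine ⟨j, hj, hij, ?_⟩
    rw [hℓ j (by omega), hℓ (j + 1) (by omega), hℓ (j + 2) (by omega)] at hdep
    exact hdep

end InvC
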