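import Pool.Agent.Lib_helper86.InvC.Surj
import Pool.Agent.Lib_helper86.InvC.Codazzi
import Pool.Agent.Lib_helper32.InvC.Local

/-!
The shape operator of a level set.
-/

set_option autoImplicit false

namespace InvC

open Set Filter Topology MeasureTheory Asymptotics
open scoped RealInnerProductSpace ContDiff Gradient

variable {n : ℕ} {W : Set (Vn n)} {f : Vn n → ℝ}

lemma grad_smooth (hW : IsOpen W) (hf : ContDiffOn ℝ ∞ f W) :
    ContDiffOn ℝ ∞ (fun y => ∇ f y) W :=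
  (InnerProductSpace.toDual ℝ (Vn n)).symm.toContinuousLinearEquiv.contDiff.comp_contDiffOn
    (hf.fderiv_of_isOpen hW (by simp))

lemma unitNormal_smooth (hW : IsOpen W) (hf : ContDiffOn ℝ ∞ f W) (hr : ∀ y ∈ W, ∇ f y ≠ 0) :
    ContDiffOn ℝ ∞ (unitNormal f) W := by
  have h1 := grad_smooth hW hf
  have h2 : ContDiffOn ℝ ∞ (fun y => ‖∇ f y‖) W := h1.norm ℝ hr
  exact (h2.inv fun y hy => norm_ne_zero_iff.mpr (hr y hy)).smul h1

lemma norm_unit_eq {y : Vn n} (h : ∇ f y ≠ 0) : ‖unitNormal f y‖ = 1 := by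
  simp only [unitNormal]
  rw [norm_smul, norm_inv, norm_norm, inv_mul_cancel₀ (norm_ne_zero_iff.mpr h)]

/-- the derivative of the unit normal is orthogonal to the unit normal -/
lemma shape_orth (hW : IsOpen W) (hf : ContDiffOn ℝ ∞ f W) (hr : ∀ y ∈ W, ∇ f y ≠ 0) {y : Vn n}
    (hy : y ∈ W) (ξ : Vn n) : ⟪fderiv ℝ (unitNormal f) y ξ, unitNormal f y⟫ = 0 := by
  have hWy : W ∈ 𝓝 y := hW.mem_nhds hy
  have hd : DifferentiableAt ℝ (unitNormal f) y :=
    ((unitNormal_smooth hW hf hr).contDiffAt hWy).differentiableAt (by simp)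
  have h1 : HasFDerivAt (fun z => ‖unitNormal f z‖ ^ 2)
      (2 • (innerSL ℝ (unitNormal f y)).comp (fderiv ℝ (unitNormal f) y)) y :=
    hd.hasFDerivAt.norm_sq
  have h2 : HasFDerivAt (fun z => ‖unitNormal f z‖ ^ 2) (0 : Vn n →L[ℝ] ℝ) y := by
    refine (hasFDerivAt_const (1 : ℝ) y).congr_of_eventuallyEq ?_
    filter_upwards [hWy] with z hz
    rw [norm_unit_eq (hr z hz), one_pow]
  have h3 := congrArg (fun A : Vn n →L[ℝ] ℝ => A ξ) (h1.unique h2)
  simp only [smul_apply, ContinuousLinearMap.comp_apply, innerSL_apply_apply,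
    zero_apply, nsmul_eq_mul] at h3
  rw [real_inner_comm]
  have h4 : (2 : ℝ) ≠ 0 := two_ne_zero
  rcases mul_eq_zero.mp h3 with h5 | h5
  · norm_num at h5
  · exact h5

/-- the shape operator is symmetric -/
lemma shape_symm (hW : IsOpen W) (hf : ContDiffOn ℝ ∞ f W) (hr : ∀ y ∈ W, ∇ f y ≠ 0) {y : Vn n}
    (hy : y ∈ W) {ξ η : Vn n} (hξ : ⟪∇ f y, ξ⟫ = 0) (hη : ⟪∇ f y, η⟫ = 0) :
    ⟪fderiv ℝ (unitNormal f) y ξ, η⟫ = ⟪fderiv ℝ (unitNormal f) y η, ξ⟫ := by
  have hWy : W ∈ 𝓝 y := hW.mem_nhds hy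
  have hfy : ContDiffAt ℝ ∞ f y := hf.contDiffAt hWy
  have hsymm : IsSymmSndFDerivAt ℝ f y := hfy.isSymmSndFDerivAt two_le_inf
  have hd1 : DifferentiableAt ℝ (fderiv ℝ f) y :=
    ((hfy.fderiv_right (m := 1) (by norm_cast)).differentiableAt (by norm_num))
  have hg : DifferentiableAt ℝ (fun z => ∇ f z) y :=
    ((grad_smooth hW hf).contDiffAt hWy).differentiableAt (by simp)
  have hc : DifferentiableAt ℝ (fun z => ‖∇ f z‖⁻¹) y :=
    (hg.norm ℝ (hr y hy)).inv (norm_ne_zero_iff.mpr (hr y hy))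
  have hN : HasFDerivAt (unitNormal f) (‖∇ f y‖⁻¹ • fderiv ℝ (fun z => ∇ f z) y +
        (fderiv ℝ (fun z => ‖∇ f z‖⁻¹) y).smulRight (∇ f y)) y :=
    hc.hasFDerivAt.smul hg.hasFDerivAt
  have key0 : ∀ ξ η : Vn n, ⟪fderiv ℝ (fun z => ∇ f z) y ξ, η⟫ = fderiv ℝ (fderiv ℝ f) y ξ η := by
    intro ξ η
    have h1 : HasFDerivAt (fun z => ⟪∇ f z, η⟫)
        ((innerSL ℝ η).comp (fderiv ℝ (fun z => ∇ f z) y)) y := by
      have h2 : HasFDerivAt (fun z => innerSL ℝ η (∇ f z))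
          ((innerSL ℝ η).comp (fderiv ℝ (fun z => ∇ f z) y)) y :=
        (innerSL ℝ η).hasFDerivAt.comp y hg.hasFDerivAt
      refine h2.congr_of_eventuallyEq (Eventually.of_forall fun z => ?_)
      simp only [innerSL_apply_apply]
      exact real_inner_comm _ _
    have h3 : HasFDerivAt (fun z => ⟪∇ f z, η⟫)
        ((ContinuousLinearMap.apply ℝ ℝ η).comp (fderiv ℝ (fderiv ℝ f) y)) y := by
      have h4 : HasFDerivAt (fun z => ContinuousLinearMap.apply ℝ ℝ η (fderiv ℝ f z))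
          ((ContinuousLinearMap.apply ℝ ℝ η).comp (fderiv ℝ (fderiv ℝ f) y)) y :=
        (ContinuousLinearMap.apply ℝ ℝ η).hasFDerivAt.comp y hd1.hasFDerivAt
      refine h4.congr_of_eventuallyEq (Eventually.of_forall fun z => ?_)
      simp only [ContinuousLinearMap.apply_apply]
      rw [gradient, InnerProductSpace.toDual_symm_apply]
    have h5 := congrArg (fun A : Vn n →L[ℝ] ℝ => A ξ) (h1.unique h3)
    simp only [ContinuousLinearMap.comp_apply, innerSL_apply_apply,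
      ContinuousLinearMap.apply_apply] at h5
    rw [real_inner_comm]
    exact h5
  have key : ∀ ξ η : Vn n, ⟪∇ f y, η⟫ = 0 → ⟪fderiv ℝ (unitNormal f) y ξ, η⟫
      = ‖∇ f y‖⁻¹ * fderiv ℝ (fderiv ℝ f) y ξ η := by
    intro ξ η hη
    rw [hN.fderiv]
    simp only [add_apply, smul_apply, ContinuousLinearMap.smulRight_apply]
    rw [inner_add_left, real_inner_smul_left, real_inner_smul_left, hη, mul_zero, add_zero, key0]
  rw [key ξ η hη, key η ξ hξ, hsymm.eq ξ η]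

end InvC
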