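import Pool.Agent.Lib_helper32.InvC.Defs

/-!
PART G1 of Theorem C: the state after `i` reflections depends on the first state by a local
diffeomorphism.
-/

set_option autoImplicit false

namespace InvC

open Set Filter Topology MeasureTheory Asymptotics
open scoped RealInnerProductSpace ContDiff Gradient

variable {n : ℕ}

lemma rho_rho {w : Vn n} (hw : w ≠ 0) (v : Vn n) : rho w (rho w v) = v := by
  have h0 : ‖w‖ ≠ 0 := norm_ne_zero_iff.mpr hw
  have h1 : ⟪rho w v, w⟫ = -⟪v, w⟫ := by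
    simp only [rho]
    rw [inner_sub_left, real_inner_smul_left, real_inner_self_eq_norm_sq]
    field_simp
    ring
  have h2 : rho w (rho w v) = rho w v - (2 * ⟪rho w v, w⟫ / ‖w‖ ^ 2) • w := rfl
  rw [h2, h1]
  simp only [rho]
  rw [sub_sub, ← add_smul]
  have h3 : 2 * ⟪v, w⟫ / ‖w‖ ^ 2 + 2 * -⟪v, w⟫ / ‖w‖ ^ 2 = 0 := by ring
  rw [h3, zero_smul, sub_zero]

lemma inner_rho {w : Vn n} (hw : w ≠ 0) (v : Vn n) : ⟪w, rho w v⟫ = -⟪w, v⟫ := by
  have h0 : ‖w‖ ≠ 0 := norm_ne_zero_iff.mpr hw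
  simp only [rho]
  rw [inner_sub_right, real_inner_smul_right, real_inner_self_eq_norm_sq, real_inner_comm v w]
  field_simp
  ring

lemma differentiableAt_rho {w v : Vn n} (hw : w ≠ 0) :
    DifferentiableAt ℝ (fun p : Vn n × Vn n => rho p.1 p.2) (w, v) := by
  have h0 : ‖w‖ ^ 2 ≠ 0 := pow_ne_zero 2 (norm_ne_zero_iff.mpr hw)
  have h1 : DifferentiableAt ℝ (fun p : Vn n × Vn n => p.2) (w, v) := differentiableAt_snd
  have h2 : DifferentiableAt ℝ (fun p : Vn n × Vn n => p.1) (w, v) := differentiableAt_fst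
  have h3 : DifferentiableAt ℝ (fun p : Vn n × Vn n => ‖p.1‖ ^ 2) (w, v) := h2.norm_sq ℝ
  have h4 : DifferentiableAt ℝ (fun p : Vn n × Vn n => ⟪p.2, p.1⟫) (w, v) := h1.inner ℝ h2
  have h5 : DifferentiableAt ℝ (fun p : Vn n × Vn n => 2 * ⟪p.2, p.1⟫ / ‖p.1‖ ^ 2) (w, v) := by
    simp only [div_eq_mul_inv]
    exact (h4.const_mul 2).fun_mul (h3.inv h0)
  exact h1.fun_sub (h5.fun_smul h2)

lemma hd_fst {ℓ : ℝ → Qn n} {D : Qn n} {t : ℝ} (h : HasDerivAt ℓ D t) :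
    HasDerivAt (fun t => (ℓ t).1) D.1 t :=
  (ContinuousLinearMap.fst ℝ (Vn n) (Vn n)).hasFDerivAt.comp_hasDerivAt t h

lemma hd_snd {ℓ : ℝ → Qn n} {D : Qn n} {t : ℝ} (h : HasDerivAt ℓ D t) :
    HasDerivAt (fun t => (ℓ t).2) D.2 t :=
  (ContinuousLinearMap.snd ℝ (Vn n) (Vn n)).hasFDerivAt.comp_hasDerivAt t h

/-- the derivative along a line -/
lemma hasDerivAt_line {E F : Type*} [NormedAddCommGroup E] [NormedSpace ℝ E]
    [NormedAddCommGroup F] [NormedSpace ℝ F] {g : E → F} {q : E} (hg : DifferentiableAt ℝ g q)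
    (h : E) : HasDerivAt (fun t : ℝ => g (q + t • h)) (fderiv ℝ g q h) 0 := by
  have h1 : HasFDerivAt g (fderiv ℝ g q) (q + (0 : ℝ) • h) := by
    rw [zero_smul, add_zero]
    exact hg.hasFDerivAt
  have h2 : HasDerivAt (fun t : ℝ => q + t • h) h 0 := by
    simpa using ((hasDerivAt_id (0 : ℝ)).smul_const h).const_add q
  exact h1.comp_hasDerivAt (0 : ℝ) h2

/-- the one-step argument, along a curve -/
lemma step_inj {W : Set (Vn n)} {f : Vn n → ℝ} (hW : IsOpen W) (hf : ContDiffOn ℝ ∞ f W)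
    (hr : ∀ y ∈ W, ∇ f y ≠ 0) {ℓ ℓ' : ℝ → Qn n} {T : ℝ → ℝ} {D : Qn n} {T' : ℝ}
    (hℓ : HasDerivAt ℓ D 0) (hT : HasDerivAt T T' 0) (hℓ' : HasDerivAt ℓ' 0 0)
    (hmem : ∀ᶠ t in 𝓝 (0 : ℝ), pos (T t) (ℓ t) ∈ W ∧ f (pos (T t) (ℓ t)) = 0 ∧
      ℓ' t = step f (T t) (ℓ t))
    (htr : ⟪∇ f (pos (T 0) (ℓ 0)), (ℓ 0).2⟫ ≠ 0) : D = 0 := by
  obtain ⟨hm0, hf0, hs0⟩ := hmem.self_of_nhds
  have hW0 : W ∈ 𝓝 (pos (T 0) (ℓ 0)) := hW.mem_nhds hm0
  set a₀ := pos (T 0) (ℓ 0) with ha₀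
  have hw0 : ∇ f a₀ ≠ 0 := hr _ hm0
  -- components
  have hx' : HasDerivAt (fun t => (ℓ' t).1) 0 0 := hd_fst hℓ'
  have hv' : HasDerivAt (fun t => (ℓ' t).2) 0 0 := hd_snd hℓ'
  have hx : HasDerivAt (fun t => (ℓ t).1) D.1 0 := hd_fst hℓ
  have hv : HasDerivAt (fun t => (ℓ t).2) D.2 0 := hd_snd hℓ
  -- the point
  have hA : ∀ᶠ t in 𝓝 (0 : ℝ), pos (T t) (ℓ t) = (ℓ' t).1 + T t • (ℓ' t).2 := by
    filter_upwards [hmem] with t ht
    rw [ht.2.2]
    simp only [step, stepN]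
    abel
  have hAd : HasDerivAt (fun t => pos (T t) (ℓ t)) (T' • (ℓ' 0).2) 0 := by
    have h1 : HasDerivAt (fun t => (ℓ' t).1 + T t • (ℓ' t).2)
        (0 + (T 0 • (0 : Vn n) + T' • (ℓ' 0).2)) 0 := hx'.add (hT.smul hv')
    rw [smul_zero, zero_add, zero_add] at h1
    exact h1.congr_of_eventuallyEq hA
  have hfd : HasFDerivAt f (fderiv ℝ f a₀) a₀ :=
    ((hf.contDiffAt hW0).differentiableAt (by simp)).hasFDerivAt
  have h2 : HasDerivAt (fun t => f (pos (T t) (ℓ t))) (fderiv ℝ f a₀ (T' • (ℓ' 0).2)) 0 :=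
    hfd.comp_hasDerivAt (0 : ℝ) hAd
  have h3 : HasDerivAt (fun t => f (pos (T t) (ℓ t))) 0 0 :=
    (hasDerivAt_const (0 : ℝ) (0 : ℝ)).congr_of_eventuallyEq (hmem.mono fun t ht => ht.2.1)
  have h4 : fderiv ℝ f a₀ (T' • (ℓ' 0).2) = 0 := h2.unique h3
  have h5 : fderiv ℝ f a₀ (ℓ' 0).2 = -⟪∇ f a₀, (ℓ 0).2⟫ := by
    have e1 : fderiv ℝ f a₀ (ℓ' 0).2 = ⟪∇ f a₀, (ℓ' 0).2⟫ := by
      rw [gradient, InnerProductSpace.toDual_symm_apply]
    rw [e1, hs0]
    exact inner_rho hw0 _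
  have hT0 : T' = 0 := by
    rw [map_smul, h5, smul_eq_mul] at h4
    rcases mul_eq_zero.mp h4 with h | h
    · exact h
    · exact absurd (neg_eq_zero.mp h) htr
  rw [hT0, zero_smul] at hAd
  rw [hT0] at hT
  -- the normal
  have hGd : DifferentiableAt ℝ (fun y => ∇ f y) a₀ := by
    have h6 : DifferentiableAt ℝ (fderiv ℝ f) a₀ :=
      (((hf.contDiffAt hW0).fderiv_right (m := 1) (by norm_cast)).differentiableAt (by norm_num))
    exact (InnerProductSpace.toDual ℝ (Vn n)).symm.differentiable.differentiableAt.comp a₀ h6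
  have hwd : HasDerivAt (fun t => ∇ f (pos (T t) (ℓ t))) 0 0 := by
    have h6 := hGd.hasFDerivAt.comp_hasDerivAt (0 : ℝ) hAd
    rw [map_zero] at h6
    exact h6
  -- the direction
  have hvd : HasDerivAt (fun t => (ℓ t).2) 0 0 := by
    have h7 : HasDerivAt (fun t => (∇ f (pos (T t) (ℓ t)), (ℓ' t).2)) ((0 : Vn n), (0 : Vn n)) 0 :=
      hwd.prodMk hv'
    have h8 := (differentiableAt_rho (v := (ℓ' 0).2) hw0).hasFDerivAt.comp_hasDerivAt (0 : ℝ) h7
    rw [Prod.mk_zero_zero, map_zero] at h8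
    have h9 : HasDerivAt (fun t => rho (∇ f (pos (T t) (ℓ t))) (ℓ' t).2) 0 0 := h8
    refine h9.congr_of_eventuallyEq ?_
    filter_upwards [hmem] with t ht
    rw [ht.2.2]
    exact (rho_rho (hr _ ht.1) _).symm
  have hD2 : D.2 = 0 := hv.unique hvd
  have hD1 : D.1 = 0 := by
    have h10 : HasDerivAt (fun t => pos (T t) (ℓ t) - T t • (ℓ t).2)
        (0 - (T 0 • (0 : Vn n) + (0 : ℝ) • (ℓ 0).2)) 0 := hAd.sub (hT.smul hvd)
    rw [smul_zero, zero_smul, zero_add, sub_zero] at h10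
    have h11 : (fun t => pos (T t) (ℓ t) - T t • (ℓ t).2) = fun t => (ℓ t).1 := by
      funext t
      simp only [pos]
      abel
    rw [h11] at h10
    exact hx.unique h10
  exact Prod.ext hD1 hD2

/-- PART G1 -/
theorem Branch.surj {S : Set (Vn n)} {V : Set (Qn n)} {k : ℕ} {W : ℕ → Set (Vn n)}
    {f : ℕ → Vn n → ℝ} {L : ℕ → Qn n → Qn n} {τ : ℕ → Qn n → ℝ} (h : Branch S V k W f L τ)
    {i : ℕ} (hi : i ≤ k) {q : Qn n} (hq : q ∈ V) : Function.Surjective (fderiv ℝ (L i) q) := by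
  have hVq : V ∈ 𝓝 q := h.isOpen.mem_nhds hq
  have hinj : ∀ D, fderiv ℝ (L i) q D = 0 → D = 0 := by
    induction i with
    | zero =>
      intro D hD
      have h1 : fderiv ℝ (L 0) q = ContinuousLinearMap.id ℝ (Qn n) := by
        have h2 : L 0 =ᶠ[𝓝 q] id := by
          filter_upwards [hVq] with p hp
          exact h.start p hp
        rw [h2.fderiv_eq, fderiv_id]
      rw [h1] at hD
      exact hD
    | succ i ih =>
      intro D hD
      refine ih (by omega) D ?_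
      have hdL : DifferentiableAt ℝ (L i) q :=
        ((h.smoothL i (by omega)).contDiffAt hVq).differentiableAt (by simp)
      have hdL' : DifferentiableAt ℝ (L (i + 1)) q :=
        ((h.smoothL (i + 1) hi).contDiffAt hVq).differentiableAt (by simp)
      have hdT : DifferentiableAt ℝ (τ i) q :=
        ((h.smoothT i (by omega)).contDiffAt hVq).differentiableAt (by simp)
      have hd' := hasDerivAt_line hdL' D
      rw [hD] at hd'
      have hcont : Tendsto (fun t : ℝ => q + t • D) (𝓝 0) (𝓝 q) := by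
        have : Continuous fun t : ℝ => q + t • D := by fun_prop
        simpa using this.tendsto 0
      refine step_inj (h.eqn i (by omega)).isOpen (h.eqn i (by omega)).smooth
        (h.eqn i (by omega)).regular (hasDerivAt_line hdL D) (hasDerivAt_line hdT D) hd' ?_ ?_
      · filter_upwards [hcont hVq] with t ht
        exact ⟨h.mem i (by omega) _ ht, h.hit i (by omega) _ ht, h.next i (by omega) _ ht⟩
      · simp only [zero_smul, add_zero]
        exact h.trans i (by omega) q hq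
  have hinj' : Function.Injective (fderiv ℝ (L i) q) :=
    (injective_iff_map_eq_zero _).2 hinj
  exact (LinearMap.injective_iff_surjective (f := (fderiv ℝ (L i) q : Qn n →ₗ[ℝ] Qn n))).1 hinj'

end InvC
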